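import Pool.Agent.H88.CM.AREG

/-! Closing lemma on compact manifolds: lemmas on maps in charts. -/

open Set Function Topology Metric Filter
open scoped Manifold

namespace Pool.Agent.H88.CM

open Pool.Agent.H88.CL

variable {d : ℕ} {M : Type} [TopologicalSpace M] [ChartedSpace (E d) M]
  [IsManifold 𝓘(ℝ, E d) 2 M]

omit [IsManifold 𝓘(ℝ, E d) 2 M] in
/-- The expression of a `C²` map in charts is `C²` where it is defined. -/
theorem rep_contDiffAt {φ ψ : Ch d M} (hφ : φ ∈ MA d M) (hψ : ψ ∈ MA d M) {g : M → M}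
    (hg : ContMDiff 𝓘(ℝ, E d) 𝓘(ℝ, E d) 2 g) {w : E d} (hw : w ∈ φ.target)
    (hgw : g (φ.symm w) ∈ ψ.source) : ContDiffAt ℝ 2 (rep φ ψ g) w := by
  rw [← contMDiffAt_iff_contDiffAt]
  have h1 : ContMDiffAt 𝓘(ℝ, E d) 𝓘(ℝ, E d) 2 φ.symm w :=
    contMDiffAt_symm_of_mem_maximalAtlas hφ hw
  have h2 : ContMDiffAt 𝓘(ℝ, E d) 𝓘(ℝ, E d) 2 g (φ.symm w) := hg.contMDiffAt
  have h3 : ContMDiffAt 𝓘(ℝ, E d) 𝓘(ℝ, E d) 2 ψ (g (φ.symm w)) :=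
    contMDiffAt_of_mem_maximalAtlas hψ hgw
  exact (h3.comp _ h2).comp w h1

omit [IsManifold 𝓘(ℝ, E d) 2 M] in
theorem rep_diff {φ ψ : Ch d M} (hφ : φ ∈ MA d M) (hψ : ψ ∈ MA d M) {g : M → M}
    (hg : ContMDiff 𝓘(ℝ, E d) 𝓘(ℝ, E d) 2 g) {w : E d} (hw : w ∈ φ.target)
    (hgw : g (φ.symm w) ∈ ψ.source) : DifferentiableAt ℝ (rep φ ψ g) w :=
  (rep_contDiffAt hφ hψ hg hw hgw).differentiableAt (by norm_num)

omit [ChartedSpace (E d) M] [IsManifold 𝓘(ℝ, E d) 2 M] in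
theorem rep_id_eventually {φ : Ch d M} {w : E d} (hw : w ∈ φ.target) :
    rep φ φ (id : M → M) =ᶠ[𝓝 w] id := by
  filter_upwards [φ.open_target.mem_nhds hw] with v hv
  exact φ.right_inv hv

omit [ChartedSpace (E d) M] [IsManifold 𝓘(ℝ, E d) 2 M] in
theorem fderiv_rep_id {φ : Ch d M} {w : E d} (hw : w ∈ φ.target) :
    fderiv ℝ (rep φ φ (id : M → M)) w = ContinuousLinearMap.id ℝ (E d) := by
  rw [(rep_id_eventually hw).fderiv_eq, fderiv_id]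

omit [ChartedSpace (E d) M] [IsManifold 𝓘(ℝ, E d) 2 M] in
/-- The expression of a composition. -/
theorem rep_comp_eventually {φ ψ χ : Ch d M} {g τ : M → M} (hτ : Continuous τ) {w : E d}
    (hw : w ∈ φ.target) (hτw : τ (φ.symm w) ∈ ψ.source) :
    rep φ χ (g ∘ τ) =ᶠ[𝓝 w] rep ψ χ g ∘ rep φ ψ τ := by
  have h1 : ContinuousAt (fun v => τ (φ.symm v)) w :=
    hτ.continuousAt.comp (φ.symm.continuousAt hw)
  filter_upwards [h1.preimage_mem_nhds (ψ.open_source.mem_nhds hτw)] with v hv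
  have hv' : τ (φ.symm v) ∈ ψ.source := hv
  simp only [rep, comp_apply, ψ.left_inv hv']

omit [IsManifold 𝓘(ℝ, E d) 2 M] in
theorem fderiv_rep_comp {φ ψ χ : Ch d M} (hφ : φ ∈ MA d M) (hψ : ψ ∈ MA d M) (hχ : χ ∈ MA d M)
    {g τ : M → M} (hg : ContMDiff 𝓘(ℝ, E d) 𝓘(ℝ, E d) 2 g)
    (hτ : ContMDiff 𝓘(ℝ, E d) 𝓘(ℝ, E d) 2 τ) {w : E d} (hw : w ∈ φ.target)
    (hτw : τ (φ.symm w) ∈ ψ.source) (hgw : g (τ (φ.symm w)) ∈ χ.source) :
    fderiv ℝ (rep φ χ (g ∘ τ)) w =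
      (fderiv ℝ (rep ψ χ g) (rep φ ψ τ w)).comp (fderiv ℝ (rep φ ψ τ) w) := by
  rw [(rep_comp_eventually hτ.continuous hw hτw).fderiv_eq]
  refine fderiv_comp w ?_ (rep_diff hφ hψ hτ hw hτw)
  refine rep_diff hψ hχ hg (ψ.map_source hτw) ?_
  rwa [rep, ψ.left_inv hτw]

omit [IsManifold 𝓘(ℝ, E d) 2 M] in
/-- enlarging the compact set of a test -/
theorem Test.enlarge {f : M → M} {φ ψ : Ch d M} {K : Set M} (hT : Test d f φ ψ K)
    (hf : Continuous f) : ∃ δ0 : ℝ, 0 < δ0 ∧ ∀ δ : ℝ, 0 < δ → δ ≤ δ0 →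
      Test d f φ ψ (φ.symm '' cthickening δ (φ '' K)) ∧
      cthickening δ (φ '' K) ⊆ φ.target ∧ IsCompact (cthickening δ (φ '' K)) := by
  have hS : IsCompact (φ '' K) := hT.c.image_of_continuousOn (φ.continuousOn.mono hT.s)
  have hO : IsOpen (φ.target ∩ φ.symm ⁻¹' (f ⁻¹' ψ.source)) :=
    φ.isOpen_inter_preimage_symm (ψ.open_source.preimage hf)
  have hSO : φ '' K ⊆ φ.target ∩ φ.symm ⁻¹' (f ⁻¹' ψ.source) := by
    rintro _ ⟨y, hy, rfl⟩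
    refine ⟨φ.map_source (hT.s hy), ?_⟩
    rw [mem_preimage, mem_preimage, φ.left_inv (hT.s hy)]
    exact hT.t y hy
  obtain ⟨δ0, hδ0, h1⟩ := hS.exists_cthickening_subset_open hO hSO
  refine ⟨δ0, hδ0, fun δ hδ hδδ => ?_⟩
  have h2 : cthickening δ (φ '' K) ⊆ φ.target ∩ φ.symm ⁻¹' (f ⁻¹' ψ.source) :=
    (cthickening_mono hδδ _).trans h1
  have h3 : IsCompact (cthickening δ (φ '' K)) := hS.cthickening
  refine ⟨⟨hT.a, hT.b, ?_, ?_, ?_⟩, fun v hv => (h2 hv).1, h3⟩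
  · exact h3.image_of_continuousOn (φ.symm.continuousOn.mono fun v hv => (h2 hv).1)
  · rintro _ ⟨v, hv, rfl⟩
    exact φ.map_target (h2 hv).1
  · rintro _ ⟨v, hv, rfl⟩
    exact (h2 hv).2

theorem Modulus.mul_le {ω : ℝ → ℝ} (hω : Modulus ω) {c ρ : ℝ} (hρ : 0 < ρ) (hc : 1 ≤ c) :
    ω (c * ρ) ≤ c * ω ρ := by
  have h := hω.conc ρ (c * ρ) hρ (by nlinarith)
  have h2 : ρ * ω (c * ρ) ≤ ρ * (c * ω ρ) := by linarith
  exact le_of_mul_le_mul_left h2 hρ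

end Pool.Agent.H88.CM
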