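import Pool.Agent.H88.CM.ATOP

/-! Closing lemma on compact manifolds: the final assembly. -/

open Set Function Topology Metric Filter
open scoped Manifold

namespace Pool.Agent.H88.CM

open Pool.Agent.H88.CL

/-- the closing lemma for a `C²` diffeomorphism given with its inverse -/
def T_CORE : Prop := ∀ (d : ℕ) (M : Type) [TopologicalSpace M] [T2Space M]
  [CompactSpace M] [ChartedSpace (E d) M] [IsManifold 𝓘(ℝ, E d) 2 M] (f f' : M → M), DM d f f' →
  ∀ x : M, NWM f x → ∀ (nt : ℕ) (φ ψ : Fin nt → Ch d M) (K : Fin nt → Set M),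
  (∀ k, Test d f (φ k) (ψ k) (K k)) → ∀ (ω : ℝ → ℝ) (η : ℝ), Modulus ω → 0 < η →
  ∃ (g g' : M → M) (m : ℕ), DM d g g' ∧ 1 ≤ m ∧ g^[m] x = x ∧
    ∀ k, ClsT d ω η f g (φ k) (ψ k) (K k)

theorem conj_iterM {M : Type} (g τ τ' : M → M) (h : ∀ y, τ (τ' y) = y) (m : ℕ) (x : M) :
    (τ' ∘ g ∘ τ)^[m] x = τ' (g^[m] (τ x)) ∨ m = 0 := by
  induction m generalizing x with
  | zero => right; rfl
  | succ m ih =>
    left
    rcases ih ((τ' ∘ g ∘ τ) x) with h1 | rfl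
    · rw [iterate_succ_apply, h1]
      simp only [comp_apply, h, iterate_succ_apply]
    · rfl

theorem asm_CORE (hTOPM : T_TOPM) (hCRM : T_CRM) (hCLL : T_CLL) (hINV : T_INV) (hBMD : T_BMD) :
    T_CORE := by
  intro d M _ _ _ _ _ f f' hf x hNW nt φ ψ K hT ω η hω hη
  set κ : Ch d M := chartAt (E d) x with hκd
  have hx : x ∈ κ.source := mem_chart_source (E d) x
  have hκ : κ ∈ MA d M := IsManifold.chart_mem_maximalAtlas x
  rcases Nat.eq_zero_or_pos d with rfl | hd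
  · have hop : κ.source ∈ 𝓝 x := κ.open_source.mem_nhds hx
    obtain ⟨n, hn, _, ⟨y, hy, rfl⟩, hy2⟩ := hNW _ hop
    have hsub : ∀ z ∈ κ.source, z = x := fun z hz => κ.injOn hz hx (Subsingleton.elim _ _)
    refine ⟨f, f', n, hf, hn, ?_, fun k => ClsT.refl hω hη (hT k)⟩
    have h1 := hsub y hy
    have h2 := hsub _ hy2
    rw [h1] at h2
    exact h2
  · obtain ⟨ρ', hρ'0, hρ'⟩ := Metric.isOpen_iff.1 κ.open_target (κ x) (κ.map_source hx)
    have hρ0 : 0 < ρ' / 2 := by linarith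
    have hρ0t : closedBall (κ x) (ρ' / 2) ⊆ κ.target :=
      (closedBall_subset_ball (by linarith)).trans hρ'
    choose K1 η1 e1 hK1 hη1 he1 he12 h1 using fun k => hCLL d M κ (closedBall (κ x) (ρ' / 2)) hκ
      (isCompact_closedBall _ _) hρ0t f f' hf (φ k) (ψ k) (K k) (hT k) ω η hω hη
    choose K2 η2 e2 hK2 hη2 he2 he22 h2 using fun k => hCRM d M κ (closedBall (κ x) (ρ' / 2)) hκ
      (isCompact_closedBall _ _) hρ0t f f' hf (φ k) (ψ k) (K1 k) (hK1 k) ω (η1 k) hω (hη1 k)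
    obtain ⟨ea, hea, heak⟩ := fin_min e1 he1
    obtain ⟨eb, heb, hebk⟩ := fin_min e2 he2
    obtain ⟨η0, hη0, hη0k⟩ := fin_min η2 hη2
    set e : ℝ := min (min ea eb) (1 / 2) with he
    have hepos : 0 < e := lt_min (lt_min hea heb) (by norm_num)
    obtain ⟨C, hC1, hC⟩ := a_OBP d
    have hCpos : 0 < C := by linarith
    -- the size of the translation
    set a : ℝ := C * (1 / (ρ' / 2)) + C * (1 / (ρ' / 2)) ^ 2 + 1 with ha
    have hapos : 0 < a := by positivity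
    set δ : ℝ := e / (8 * a) with hδ
    have hδpos : 0 < δ := by positivity
    obtain ⟨g, g', q, m, hg, hcl, hm, hqs, hqx, hret⟩ := hTOPM d hd M f f' hf κ x hκ hx hNW nt
      φ ψ K2 hK2 ω η0 δ hω hη0 hδpos
    obtain ⟨u, u1, u2, u3, u4, u5, u6⟩ := hC (ContinuousLinearMap.id ℝ (E d)) 1 (ρ' / 2) (κ x) 0
      (κ q - κ x) ContinuousLinearMap.norm_id_le hρ0
    have hbd1 : ‖κ q - κ x‖ ≤ e / 8 := by
      refine hqx.trans ?_
      rw [hδ]
      apply div_le_div_of_nonneg_left hepos.le (by norm_num)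
      have : 1 ≤ a := by
        have h3 : 0 ≤ C * (1 / (ρ' / 2)) + C * (1 / (ρ' / 2)) ^ 2 := by positivity
        rw [ha]; linarith
      linarith
    have hδa : a * δ = e / 8 := by rw [hδ]; field_simp
    have hbd2 : C * (1 / (ρ' / 2)) * ‖κ q - κ x‖ ≤ e / 8 := by
      have h3 : C * (1 / (ρ' / 2)) ≤ a := by
        have : 0 ≤ C * (1 / (ρ' / 2)) ^ 2 := by positivity
        rw [ha]; linarith
      calc C * (1 / (ρ' / 2)) * ‖κ q - κ x‖ ≤ a * δ :=
            mul_le_mul h3 hqx (norm_nonneg _) hapos.le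
        _ = e / 8 := hδa
    have hbd3 : C * (1 / (ρ' / 2)) ^ 2 * ‖κ q - κ x‖ ≤ e / 8 := by
      have h3 : C * (1 / (ρ' / 2)) ^ 2 ≤ a := by
        have : 0 ≤ C * (1 / (ρ' / 2)) := by positivity
        rw [ha]; linarith
      calc C * (1 / (ρ' / 2)) ^ 2 * ‖κ q - κ x‖ ≤ a * δ :=
            mul_le_mul h3 hqx (norm_nonneg _) hapos.le
        _ = e / 8 := hδa
    have hu : Bp d (closedBall (κ x) (ρ' / 2)) (e / 8) (e / 8) (e / 8) u := by
      refine ⟨u1, ?_, fun v => (u2 v).trans hbd1, fun v => (u3 v).trans hbd2, ?_⟩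
      · intro v hv
        have h3 := u6 v hv
        rw [sub_zero, ContinuousLinearMap.id_apply] at h3
        rw [mem_closedBall, dist_eq_norm]
        linarith
      · intro v w
        exact (u4 v w).trans (mul_le_mul_of_nonneg_right hbd3 (norm_nonneg _))
    obtain ⟨u', hu', hi1, hi2⟩ := hINV d _ _ _ _ u hu (by
      have := min_le_right (min ea eb) (1 / 2 : ℝ); linarith)
    have hue : ∀ e' : ℝ, e ≤ e' → Bp d (closedBall (κ x) (ρ' / 2)) e' e' e' u :=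
      fun e' h => hu.mono subset_rfl (by linarith) (by linarith) (by linarith)
    have hue' : ∀ e' : ℝ, e ≤ e' → Bp d (closedBall (κ x) (ρ' / 2)) e' e' e' u' :=
      fun e' h => hu'.mono subset_rfl (by linarith) (by linarith) (by linarith)
    obtain ⟨hDM, _, _⟩ := hBMD d M κ (closedBall (κ x) (ρ' / 2)) _ _ _ _ _ _ u u' hκ
      (isCompact_closedBall _ _) hρ0t hu hu' hi1 hi2
    have hDM' : DM d (bmp κ u') (bmp κ u) := ⟨hDM.c', hDM.c, hDM.ri, hDM.li⟩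
    have hτx : bmp κ u x = q := by
      rw [bmp_of_mem hx, u5 (κ x) (by simp; positivity), add_sub_cancel, κ.left_inv hqs]
    have hτq : bmp κ u' q = x := by rw [← hτx]; exact hDM.li x
    refine ⟨bmp κ u' ∘ (g ∘ bmp κ u), (bmp κ u' ∘ g') ∘ bmp κ u, m,
      hDM'.comp (hg.comp hDM), hm, ?_, fun k => ?_⟩
    · rcases conj_iterM g (bmp κ u) (bmp κ u') hDM.ri m x with h3 | h3
      · rw [h3, hτx, hret, hτq]
      · omega
    · have hek1 : e ≤ e1 k := ((min_le_left _ _).trans (min_le_left _ _)).trans (heak k)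
      have hek2 : e ≤ e2 k := ((min_le_left _ _).trans (min_le_right _ _)).trans (hebk k)
      have h4 := h2 k g g' hg ((hcl k).mono hω (hη0k k)) u (hue _ hek2)
      exact h1 k (g ∘ bmp κ u) (bmp κ u' ∘ g') (hg.comp hDM) h4 u' (hue' _ hek1)

/-- the final statement -/
def T_MAN : Prop := ∀ (d : ℕ) (M : Type) [TopologicalSpace M] [T2Space M]
  [CompactSpace M] [ChartedSpace (E d) M] [IsManifold 𝓘(ℝ, E d) 2 M]
  (f : M ≃ₘ^2⟮𝓘(ℝ, E d), 𝓘(ℝ, E d)⟯ M) (x : M),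
  (¬ IsEmbedding (fun m : ℤ => ((f.toEquiv : Equiv.Perm M) ^ m) x) ∨ NWM f x) →
  ∀ (nt : ℕ) (φ ψ : Fin nt → Ch d M) (K : Fin nt → Set M),
  (∀ k, Test d f (φ k) (ψ k) (K k)) → ∀ (ω : ℝ → ℝ) (η : ℝ), Modulus ω → 0 < η →
  ∃ g : M ≃ₘ^2⟮𝓘(ℝ, E d), 𝓘(ℝ, E d)⟯ M, (∃ m : ℕ, 1 ≤ m ∧ g^[m] x = x) ∧
    ∀ k, ClsT d ω η f g (φ k) (ψ k) (K k)

theorem asm_MAN (hCORE : T_CORE) (hRECM : T_RECM) : T_MAN := by
  intro d M _ _ _ _ _ f x hx nt φ ψ K hT ω η hω hη
  have hf : DM d (f : M → M) (f.symm : M → M) :=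
    ⟨f.contMDiff, f.symm.contMDiff, f.symm_apply_apply, f.apply_symm_apply⟩
  have hNW : NWM f x := by
    rcases hx with h | h
    · exact hRECM M f.toEquiv x f.contMDiff.continuous f.symm.contMDiff.continuous h
    · exact h
  obtain ⟨g, g', m, hg, hm, hret, hcl⟩ := hCORE d M f f.symm hf x hNW nt φ ψ K hT ω η hω hη
  exact ⟨⟨⟨g, g', hg.li, hg.ri⟩, hg.c, hg.c'⟩, ⟨m, hm, hret⟩, hcl⟩

end Pool.Agent.H88.CM
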