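import Pool.Agent.H88.CM.Targets
import Pool.Agent.H88.CL.All

/-! Closing lemma on compact manifolds: assembly of the regular case. -/

open Set Function Topology Metric Filter
open scoped Manifold

namespace Pool.Agent.H88.CM

open Pool.Agent.H88.CL

theorem Bp.mono {d : ℕ} {K K' : Set (E d)} {σ β γ σ' β' γ' : ℝ} {u : E d → E d}
    (h : Bp d K σ β γ u) (hK : K ⊆ K') (hσ : σ ≤ σ') (hβ : β ≤ β') (hγ : γ ≤ γ') :
    Bp d K' σ' β' γ' u where
  c2 := h.c2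
  sup := fun v hv => hK (h.sup v hv)
  s := fun v => (h.s v).trans hσ
  b := fun v => (h.b v).trans hβ
  g := fun v w => (h.g v w).trans (mul_le_mul_of_nonneg_right hγ (norm_nonneg _))

theorem DM.inj {d : ℕ} {M : Type} [TopologicalSpace M] [ChartedSpace (E d) M] {f f' : M → M}
    (h : DM d f f') : Injective f := LeftInverse.injective h.li

theorem DM.comp {d : ℕ} {M : Type} [TopologicalSpace M] [ChartedSpace (E d) M] {f f' g g' : M → M}
    (hf : DM d f f') (hg : DM d g g') : DM d (f ∘ g) (g' ∘ f') where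
  c := hf.c.comp hg.c
  c' := hg.c'.comp hf.c'
  li := fun x => by simp only [comp_apply, hf.li, hg.li]
  ri := fun x => by simp only [comp_apply, hg.ri, hf.ri]

theorem bmp_of_mem {d : ℕ} {M : Type} [TopologicalSpace M] {φ : Ch d M} {u : E d → E d} {y : M}
    (h : y ∈ φ.source) : bmp φ u y = φ.symm (φ y + u (φ y)) := by
  unfold bmp
  rw [if_pos h]

theorem bmp_of_notMem {d : ℕ} {M : Type} [TopologicalSpace M] {φ : Ch d M} {u : E d → E d} {y : M}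
    (h : y ∉ φ.source) : bmp φ u y = y := by
  unfold bmp
  rw [if_neg h]

theorem asm_REGM (hITAS : T_ITAS) (hITBS : T_ITBS) (hNSTS : T_NSTS) (hSELM : T_SELM)
    (hSTRM : T_STRM) (hMBX : T_MBX) : ∀ d : ℕ, 1 ≤ d → ∃ C : ℝ, 1 ≤ C ∧
    ∀ (M : Type) [TopologicalSpace M] [T2Space M] [CompactSpace M]
    [ChartedSpace (E d) M] [IsManifold 𝓘(ℝ, E d) 2 M] (n0 : ℕ) (A : Fin n0 → Ch d M)
    (Kh : Fin n0 → Set (E d)) (r : ℝ), GA d n0 A Kh r → ∀ f f' : M → M, DM d f f' →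
    ∀ (s L : ℝ) (b : M) (i0 : Fin n0) (ι : ℕ → Fin n0) (Φ Φ' : ℕ → E d → E d), CfgS d L Φ Φ' →
    b ∈ (A i0).source →
    (∀ (l : ℕ) (w : E d), L ^ l * ‖w - A i0 b‖ < s →
        w ∈ (A i0).target ∧ Cmp Φ l w ∈ Kh (ι l) ∧ f^[l] ((A i0).symm w) ∈ (A (ι l)).source ∧
        A (ι l) (f^[l] ((A i0).symm w)) = Cmp Φ l w) →
    (∀ (k : ℕ) (w : E d), L ^ k * ‖w - A i0 b‖ < s → f^[k] ((A i0).symm w) ∈ (A i0).source →
        A i0 (f^[k] ((A i0).symm w)) ∈ Kh i0 → f^[k] b ∈ (A i0).source ∧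
        ‖A i0 (f^[k] b) - A i0 (f^[k] ((A i0).symm w))‖ ≤ L ^ (k + 1) * ‖w - A i0 b‖) →
    ∀ (x' : M) (n N a0 b0 : ℕ) (D D1 θ : ℝ), 1 ≤ N → 0 < D1 → a0 < b0 → b0 ≤ n →
    f^[a0] x' = b → f^[b0] x' ∈ (A i0).source → ‖A i0 (f^[b0] x') - A i0 b‖ ≤ D →
    1700 * L ^ (15 * N) * D ≤ 1 → 20 * L ^ (3 * N) * D < s → 51 * L ^ (6 * N) * D ≤ θ →
    C / N ≤ 1 / 2 → closedBall (A i0 b) (20 * L ^ (3 * N) * D) ⊆ Kh i0 →
    (∀ k, 1 ≤ k → k ≤ N → ¬ (f^[k] b ∈ (A i0).source ∧ ‖A i0 (f^[k] b) - A i0 b‖ ≤ θ)) →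
    (∀ i j : ℕ, i < j → j ≤ n → f^[i] x' ∈ (A i0).source → f^[j] x' ∈ (A i0).source →
      ‖A i0 (f^[i] x') - A i0 b‖ ≤ 16 * L ^ (2 * N) * D →
      D1 < ‖A i0 (f^[j] x') - A i0 (f^[i] x')‖) →
    ∃ (D' : ℝ) (u : ℕ → E d → E d) (Sg : ℕ → Set M) (H H' : M → M) (q : M) (m : ℕ), 0 < D' ∧
      D' ≤ D ∧ D1 ≤ L ^ (2 * N) * D' ∧ DM d H H' ∧
      MB d n0 A Kh (C * L ^ (3 * N) * D') (C / N) (C * L ^ N / (N * D')) N ι u Sg H ∧ 1 ≤ m ∧
      q ∈ (A i0).source ∧ ‖A i0 q - A i0 b‖ ≤ 17 * L ^ (2 * N) * D ∧ (f ∘ H)^[m] q = q := by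
  intro d hd
  obtain ⟨C, hC1, hC⟩ := hNSTS d hd
  refine ⟨C, hC1, ?_⟩
  intro M _ _ _ _ _ n0 A Kh r hGA f f' hf s L b i0 ι Φ Φ' hcfg hbs horb hret x' n N a0 b0 D D1 θ
    hN hD1 hab hbn hxb hb0 hb0D hs1 hs2 hs3 hCN hKh hreg hsep
  have hL1 : (1:ℝ) ≤ L := le_trans (by norm_num) hcfg.two
  have hL0 : (0:ℝ) < L := by linarith
  have hK1 : (1:ℝ) ≤ L ^ N := one_le_pow₀ hL1
  -- the frame
  choose A' hA'1 hA'2 hA'3 using fun l : ℕ => hITBS d L Φ Φ' hcfg l (A i0 b)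
  obtain ⟨P, T, hfr⟩ := a_FRM d hd N hN (L ^ N) hK1 (fun l => fderiv ℝ (Cmp Φ l) (A i0 b)) A' (by
    intro l hl
    refine ⟨le_trans ((hITAS d L Φ Φ' hcfg l).2.1 (A i0 b)) (pow_le_pow_right₀ hL1 hl.le),
      le_trans (hA'1 l) (pow_le_pow_right₀ hL1 hl.le), hA'2 l, hA'3 l⟩)
  have hPhi : ∀ w, ‖P w‖ ≤ L ^ (2 * N) * ‖w‖ := by
    intro w
    have := hfr.hi w
    rw [← pow_mul] at this
    rwa [mul_comm 2 N]
  have hPlo : ∀ w, ‖P.symm w‖ ≤ ‖w‖ := by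
    intro w
    have := hfr.lo (P.symm w)
    simpa using this
  have hPhi' : ∀ w, ‖w‖ ≤ L ^ (2 * N) * ‖P.symm w‖ := by
    intro w
    have := hPhi (P.symm w)
    simpa using this
  have hL2 : (0:ℝ) < L ^ (2 * N) := pow_pos hL0 _
  have hL21 : (1:ℝ) ≤ L ^ (2 * N) := one_le_pow₀ hL1
  have hL3 : (0:ℝ) < L ^ (3 * N) := pow_pos hL0 _
  have hL13 : (0:ℝ) < L ^ (13 * N) := pow_pos hL0 _
  have hDpos : 0 ≤ D := le_trans (norm_nonneg _) hb0D
  have hbd : ∀ w : E d, 1 / 16 * ‖P.symm w‖ ≤ D → ‖w‖ ≤ 16 * L ^ (2 * N) * D := by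
    intro w hw
    have h1 := hPhi' w
    have h2 : L ^ (2 * N) * ‖P.symm w‖ ≤ L ^ (2 * N) * (16 * D) :=
      mul_le_mul_of_nonneg_left (by linarith) hL2.le
    linarith
  obtain ⟨i, j, hij', hjn', hiS, hjS, hc, hint⟩ := hSELM d P (A i0 b) (fun t => A i0 (f^[t] x'))
    {t | f^[t] x' ∈ (A i0).source} n D (D1 / L ^ (2 * N)) (div_pos hD1 hL2)
    ⟨a0, b0, hab, hbn, by show f^[a0] x' ∈ (A i0).source; rw [hxb]; exact hbs, hb0, by
      simp only [hxb, sub_self, map_zero, norm_zero]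
      have := hPlo (A i0 (f^[b0] x') - A i0 b)
      linarith⟩
    (by
      intro i j h1 h2 h3 h4 h5
      have h6 : 1 / 16 * ‖P.symm (A i0 (f^[i] x') - A i0 b)‖ ≤ D := by
        have := norm_nonneg (P.symm (A i0 (f^[j] x') - A i0 (f^[i] x'))); linarith
      have h7 := hsep i j h1 h2 h3 h4 (hbd _ h6)
      have h8 := hPhi' (A i0 (f^[j] x') - A i0 (f^[i] x'))
      rw [div_le_iff₀ hL2]
      nlinarith [h8, h7])
  replace hiS : f^[i] x' ∈ (A i0).source := hiS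
  replace hjS : f^[j] x' ∈ (A i0).source := hjS
  replace hc : ‖P.symm (A i0 (f^[j] x') - A i0 (f^[i] x'))‖ +
      1 / 16 * ‖P.symm (A i0 (f^[i] x') - A i0 b)‖ ≤ D := hc
  replace hint : ∀ t, i < t → t < j → f^[t] x' ∈ (A i0).source →
      3 / 4 * ‖P.symm (A i0 (f^[j] x') - A i0 (f^[i] x'))‖ <
        ‖P.symm (A i0 (f^[t] x') - A i0 (f^[i] x')) -
          (1 / 2 : ℝ) • P.symm (A i0 (f^[j] x') - A i0 (f^[i] x'))‖ := hint
  set κ := A i0 with hκ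
  set p : E d := κ (f^[i] x') with hp
  set q : E d := κ (f^[j] x') with hq
  have hpb : ‖p - κ b‖ ≤ 16 * L ^ (2 * N) * D := hbd _ (by
    have := norm_nonneg (P.symm (q - p)); linarith)
  have hD' : ‖P.symm (q - p)‖ ≤ D := by
    have := norm_nonneg (P.symm (p - κ b)); linarith
  have hsepq := hsep i j hij' hjn' hiS hjS hpb
  have hD1' : D1 ≤ L ^ (2 * N) * ‖P.symm (q - p)‖ := le_trans hsepq.le (hPhi' _)
  have hv0 : 0 < ‖P.symm (q - p)‖ := by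
    by_contra h
    have h1 : ‖P.symm (q - p)‖ = 0 := le_antisymm (not_lt.mp h) (norm_nonneg _)
    rw [h1, mul_zero] at hD1'
    linarith
  have hqp : q ≠ p := by
    intro h
    rw [h, sub_self, map_zero, norm_zero] at hv0
    exact lt_irrefl _ hv0
  have hsum : ‖p - κ b‖ + ‖P.symm (q - p)‖ ≤ 17 * L ^ (2 * N) * D := by
    have : D ≤ L ^ (2 * N) * D := by nlinarith
    linarith
  have hSM : 100 * L ^ (13 * N) * (‖p - κ b‖ + ‖P.symm (q - p)‖) ≤ 1 := by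
    have h1 : 100 * L ^ (13 * N) * (‖p - κ b‖ + ‖P.symm (q - p)‖) ≤
        100 * L ^ (13 * N) * (17 * L ^ (2 * N) * D) :=
      mul_le_mul_of_nonneg_left hsum (by positivity)
    have h2 : L ^ (15 * N) = L ^ (13 * N) * L ^ (2 * N) := by rw [← pow_add]; ring_nf
    rw [h2] at hs1
    nlinarith
  obtain ⟨ζ, u, hζ0, hζN, hζW, hu⟩ := hC L Φ Φ' hcfg N (κ b) p q P T hN hfr hqp hSM
  -- the set W
  set W : Set (E d) := {x | ‖P.symm (x - p) - (1 / 2 : ℝ) • P.symm (q - p)‖ ≤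
    3 / 4 * ‖P.symm (q - p)‖} with hW
  have hWb : ∀ w ∈ W, ‖w - κ b‖ ≤ 18 * L ^ (2 * N) * D := by
    intro w hw
    have hw' : ‖P.symm (w - p) - (1 / 2 : ℝ) • P.symm (q - p)‖ ≤ 3 / 4 * ‖P.symm (q - p)‖ := hw
    have h1 : ‖P.symm (w - p)‖ ≤ 5 / 4 * ‖P.symm (q - p)‖ := by
      have h2 : P.symm (w - p) = (P.symm (w - p) - (1 / 2 : ℝ) • P.symm (q - p)) +
          (1 / 2 : ℝ) • P.symm (q - p) := by abel
      have h3 := norm_add_le (P.symm (w - p) - (1 / 2 : ℝ) • P.symm (q - p))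
        ((1 / 2 : ℝ) • P.symm (q - p))
      rw [← h2, norm_smul, Real.norm_eq_abs, abs_of_pos (by norm_num : (0:ℝ) < 1 / 2)] at h3
      linarith
    have h4 := hPhi' (w - p)
    have h5 : L ^ (2 * N) * ‖P.symm (w - p)‖ ≤ L ^ (2 * N) * (5 / 4 * D) :=
      mul_le_mul_of_nonneg_left (by linarith) hL2.le
    have h6 : w - κ b = (w - p) + (p - κ b) := by abel
    have h7 := norm_add_le (w - p) (p - κ b)
    rw [h6]
    have h8 : 0 ≤ L ^ (2 * N) * D := mul_nonneg hL2.le hDpos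
    nlinarith
  have hbig : ∀ (l : ℕ) (e : ℝ), l ≤ N → 0 ≤ e → e ≤ 18 * L ^ (2 * N) * D → L ^ l * e < s := by
    intro l e hl he0 he
    have h1 : L ^ l ≤ L ^ N := pow_le_pow_right₀ hL1 hl
    have h2 : L ^ l * e ≤ L ^ N * (18 * L ^ (2 * N) * D) :=
      mul_le_mul h1 he he0 (by positivity)
    have h3 : L ^ (3 * N) = L ^ N * L ^ (2 * N) := by rw [← pow_add]; ring_nf
    have h4 : L ^ N * (18 * L ^ (2 * N) * D) ≤ 20 * L ^ (3 * N) * D := by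
      rw [h3]
      have : 0 ≤ L ^ N * L ^ (2 * N) * D := by positivity
      nlinarith
    linarith
  have hinKh : ∀ w : E d, ‖w - κ b‖ ≤ 18 * L ^ (2 * N) * D → w ∈ Kh i0 := by
    intro w hw
    apply hKh
    rw [mem_closedBall, dist_eq_norm]
    have h3 : L ^ (3 * N) = L ^ N * L ^ (2 * N) := by rw [← pow_add]; ring_nf
    rw [h3]
    have h4 : 0 ≤ L ^ (2 * N) * D := mul_nonneg hL2.le hDpos
    have h5 : L ^ (2 * N) * D ≤ L ^ N * (L ^ (2 * N) * D) := by nlinarith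
    nlinarith
  have horbW : ∀ l ≤ N, ∀ w ∈ W, w ∈ κ.target ∧ Cmp Φ l w ∈ Kh (ι l) ∧
      f^[l] (κ.symm w) ∈ (A (ι l)).source ∧ A (ι l) (f^[l] (κ.symm w)) = Cmp Φ l w :=
    fun l hl w hw => horb l w (hbig l _ hl (norm_nonneg _) (hWb w hw))
  have hWt : ∀ w ∈ W, w ∈ κ.target := fun w hw => (horbW 0 (Nat.zero_le _) w hw).1
  have hqb : ‖q - κ b‖ ≤ 17 * L ^ (2 * N) * D := by
    have h1 : q - κ b = (q - p) + (p - κ b) := by abel
    have h2 := norm_add_le (q - p) (p - κ b)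
    have h3 : ‖q - p‖ ≤ L ^ (2 * N) * D :=
      le_trans (hPhi' _) (mul_le_mul_of_nonneg_left hD' hL2.le)
    rw [h1]; linarith
  have hinj : Injective f := hf.inj
  -- the returns of b
  have hretb : ∀ (k : ℕ) (w w' : E d), 1 ≤ k → k ≤ N → ‖w - κ b‖ ≤ 18 * L ^ (2 * N) * D →
      ‖w' - κ b‖ ≤ 18 * L ^ (2 * N) * D → f^[k] (κ.symm w) ∈ κ.source →
      κ (f^[k] (κ.symm w)) = w' → False := by
    intro k w w' hk1 hkN hw hw' hsrc heq
    obtain ⟨h1, h2⟩ := hret k w (hbig k _ hkN (norm_nonneg _) hw) hsrc (by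
      rw [heq]; exact hinKh w' hw')
    refine hreg k hk1 hkN ⟨h1, ?_⟩
    rw [heq] at h2
    have h3 : κ (f^[k] b) - κ b = (κ (f^[k] b) - w') + (w' - κ b) := by abel
    have h4 := norm_add_le (κ (f^[k] b) - w') (w' - κ b)
    rw [← h3] at h4
    have h5 : L ^ (k + 1) ≤ L ^ (2 * N) := pow_le_pow_right₀ hL1 (by omega)
    have h6 : L ^ (k + 1) * ‖w - κ b‖ ≤ L ^ (2 * N) * (18 * L ^ (2 * N) * D) :=
      mul_le_mul h5 hw (norm_nonneg _) hL2.le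
    have h7 : L ^ (6 * N) = L ^ (2 * N) * L ^ (2 * N) * L ^ (2 * N) := by
      rw [← pow_add, ← pow_add]; ring_nf
    rw [h7] at hs3
    have h8 : 0 ≤ L ^ (2 * N) * D := mul_nonneg hL2.le hDpos
    have h9 : L ^ (2 * N) * D ≤ L ^ (2 * N) * (L ^ (2 * N) * D) := by nlinarith
    have h10 : L ^ (2 * N) * (L ^ (2 * N) * D) ≤ L ^ (2 * N) * (L ^ (2 * N) * (L ^ (2 * N) * D)) :=
      mul_le_mul_of_nonneg_left h9 hL2.le
    nlinarith
  -- the supports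
  have hWcl : IsClosed W := by
    have : Continuous fun x : E d => ‖P.symm (x - p) - (1 / 2 : ℝ) • P.symm (q - p)‖ := by
      fun_prop
    exact isClosed_le this continuous_const
  have hWc : IsCompact W := by
    refine Metric.isCompact_of_isClosed_isBounded hWcl ?_
    refine (Metric.isBounded_closedBall (x := κ b) (r := 18 * L ^ (2 * N) * D)).subset ?_
    intro w hw
    rw [mem_closedBall, dist_eq_norm]
    exact hWb w hw
  have hSgc : ∀ l, IsCompact (f^[l] '' (κ.symm '' W)) := by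
    intro l
    have h1 : IsCompact (κ.symm '' W) :=
      hWc.image_of_continuousOn (κ.continuousOn_symm.mono hWt)
    exact h1.image (hf.c.continuous.iterate l)
  have hdis0 : ∀ l j, l < j → j < N →
      Disjoint (f^[l] '' (κ.symm '' W)) (f^[j] '' (κ.symm '' W)) := by
    intro l j hlj hjN
    rw [Set.disjoint_left]
    rintro z ⟨_, ⟨w, hw, rfl⟩, rfl⟩ ⟨_, ⟨w', hw', rfl⟩, h⟩
    obtain ⟨k, rfl⟩ : ∃ k, j = l + k := ⟨j - l, by omega⟩
    rw [iterate_add_apply] at h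
    have h1 : f^[k] (κ.symm w') = κ.symm w := hinj.iterate l h
    refine hretb k w' w (by omega) (by omega) (hWb w' hw') (hWb w hw) ?_ ?_
    · rw [h1]; exact κ.map_target (hWt w hw)
    · rw [h1]; exact κ.right_inv (hWt w hw)
  have hdis : ∀ l < N, ∀ j < N, l ≠ j →
      Disjoint (f^[l] '' (κ.symm '' W)) (f^[j] '' (κ.symm '' W)) := by
    intro l hl j hj hne
    rcases lt_or_gt_of_ne hne with h | h
    · exact hdis0 l j h hj
    · exact (hdis0 j l h hl).symm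
  have hCpos : 0 < C := by linarith
  obtain ⟨H, H', hH, hMB⟩ := hMBX d M n0 A Kh r hGA (C * L ^ (3 * N) * ‖P.symm (q - p)‖) (C / N)
    (C * L ^ N / (N * ‖P.symm (q - p)‖)) N ι u (fun l => f^[l] '' (κ.symm '' W)) hCN
    (by
      intro l hl
      refine (hu l hl).1.mono ?_ le_rfl le_rfl le_rfl
      rintro _ ⟨w, hw, rfl⟩
      exact (horbW l hl.le w hw).2.1)
    (by
      intro l hl v hv
      obtain ⟨w, hw, rfl⟩ := (hu l hl).1.sup v hv
      obtain ⟨h1, h2, h3, h4⟩ := horbW l hl.le w hw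
      refine ⟨κ.symm w, ⟨w, hw, rfl⟩, ?_⟩
      rw [← h4, (A (ι l)).left_inv h3])
    (fun l _ => (hSgc l).isClosed)
    (by
      rintro l hl _ ⟨_, ⟨w, hw, rfl⟩, rfl⟩
      obtain ⟨h1, h2, h3, h4⟩ := horbW l hl.le w hw
      exact ⟨Cmp Φ l w, h2, by rw [← h4, (A (ι l)).left_inv h3]⟩)
    hdis
  -- the return
  obtain ⟨m, rfl⟩ : ∃ m, j = m + i := ⟨j - i, by omega⟩
  have hm1 : 1 ≤ m := by omega
  have hpq : f^[m] (f^[i] x') = f^[m + i] x' := (iterate_add_apply f m i x').symm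
  have hκp : κ.symm p = f^[i] x' := κ.left_inv hiS
  have hκq : κ.symm q = f^[m + i] x' := κ.left_inv hjS
  have hp18 : ‖p - κ b‖ ≤ 18 * L ^ (2 * N) * D := by
    have h8 : 0 ≤ L ^ (2 * N) * D := mul_nonneg hL2.le hDpos
    nlinarith
  have hq18 : ‖q - κ b‖ ≤ 18 * L ^ (2 * N) * D := by
    have h8 : 0 ≤ L ^ (2 * N) * D := mul_nonneg hL2.le hDpos
    nlinarith
  have hNm : N ≤ m := by
    by_contra hlt
    refine hretb m p q hm1 (by omega) hp18 hq18 ?_ ?_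
    · rw [hκp, hpq]; exact hjS
    · rw [hκp, hpq]
  refine ⟨‖P.symm (q - p)‖, u, fun l => f^[l] '' (κ.symm '' W), H, H', f^[m + i] x', m, hv0, hD',
    hD1', hH, hMB, hm1, hjS, hqb, ?_⟩
  refine hSTRM M f H hinj N m (f^[i] x') (f^[m + i] x') (fun l => κ.symm (ζ l)) (κ.symm '' W)
    (by rw [hζ0]; exact hκq) (by rw [hζN]; exact hκp) ?_ ?_ hNm hpq ?_
  · intro l hl
    have hζl : ζ l ∈ W := hζW l hl.le
    have hζl' : ζ (l + 1) ∈ W := hζW (l + 1) hl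
    obtain ⟨h1, h2, h3, h4⟩ := horbW l hl.le (ζ l) hζl
    obtain ⟨g1, g2, g3, g4⟩ := horbW l hl.le (ζ (l + 1)) hζl'
    have hmem : f^[l] (κ.symm (ζ l)) ∈ f^[l] '' (κ.symm '' W) :=
      ⟨_, ⟨_, hζl, rfl⟩, rfl⟩
    show H (f^[l] (κ.symm (ζ l))) = f^[l] (κ.symm (ζ (l + 1)))
    rw [hMB.eq l hl _ (fun j hj hne hy => Set.disjoint_left.1 (hdis l hl j hj (Ne.symm hne))
      hmem hy), bmp_of_mem h3, h4, (hu l hl).2]
    have h5 : Cmp Φ l (ζ l) + (Cmp Φ l (ζ (l + 1)) - Cmp Φ l (ζ l)) = Cmp Φ l (ζ (l + 1)) := by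
      abel
    rw [h5, ← g4, (A (ι l)).left_inv g3]
  · intro y hy
    by_contra hcon
    push Not at hcon
    apply hy
    apply hMB.id y
    rintro j hj ⟨z, hz, rfl⟩
    exact hcon j hj z hz rfl
  · rintro t ht1 htm ⟨w, hw, hwt⟩
    have h1 : f^[t + i] x' = κ.symm w := by rw [iterate_add_apply, ← hwt]
    have h2 : f^[t + i] x' ∈ κ.source := by rw [h1]; exact κ.map_target (hWt w hw)
    have h3 := hint (t + i) (by omega) (by omega) h2
    have h4 : κ (f^[t + i] x') = w := by rw [h1]; exact κ.right_inv (hWt w hw)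
    rw [h4] at h3
    exact absurd hw (not_le.mpr h3)

end Pool.Agent.H88.CM
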