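import Pool.Agent.H88.CM.AREG

/-! Closing lemma on compact manifolds: assembly of the main construction. -/

open Set Function Topology Metric Filter
open scoped Manifold

namespace Pool.Agent.H88.CM

open Pool.Agent.H88.CL

theorem Sml.mono {ω : ℝ → ℝ} (hω : Modulus ω) {e e' σ β γ : ℝ} (h : Sml ω e σ β γ) (he : e ≤ e') :
    Sml ω e' σ β γ where
  s0 := h.s0
  b0 := h.b0
  g0 := h.g0
  h := h.h
  a := h.a.trans he
  b := h.b.trans (mul_le_mul_of_nonneg_right he (hω.pos _ h.s0).le)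
  c := h.c.trans (mul_le_mul_of_nonneg_right he
    (hω.pos _ (div_pos h.b0 (add_pos_of_pos_of_nonneg h.b0 h.g0))).le)

theorem MB.mono {d : ℕ} {M : Type} [TopologicalSpace M] {n : ℕ} {A : Fin n → Ch d M}
    {Kh : Fin n → Set (E d)} {σ β γ σ' : ℝ} {N : ℕ} {ι : ℕ → Fin n} {u : ℕ → E d → E d}
    {Sg : ℕ → Set M} {H : M → M} (h : MB d n A Kh σ β γ N ι u Sg H) (hσ : σ ≤ σ') :
    MB d n A Kh σ' β γ N ι u Sg H where
  bp := fun l hl => (h.bp l hl).mono subset_rfl hσ le_rfl le_rfl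
  sg := h.sg
  cl := h.cl
  sb := h.sb
  dj := h.dj
  eq := h.eq
  id := h.id

theorem ClsT.mono {d : ℕ} {M : Type} [TopologicalSpace M] {ω : ℝ → ℝ} (hω : Modulus ω) {η η' : ℝ}
    {f g : M → M} {φ ψ : Ch d M} {K : Set M} (h : ClsT d ω η f g φ ψ K) (he : η ≤ η') :
    ClsT d ω η' f g φ ψ K where
  m := h.m
  z := fun y hy => (h.z y hy).trans he
  o := fun u hu => (h.o u hu).trans he
  w := fun u hu v hv huv => (h.w u hu v hv huv).trans
    (mul_le_mul_of_nonneg_right he (hω.pos _ (norm_pos_iff.2 (sub_ne_zero.2 huv))).le)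

theorem ClsT.refl {d : ℕ} {M : Type} [TopologicalSpace M] [ChartedSpace (E d) M] {ω : ℝ → ℝ}
    (hω : Modulus ω) {η : ℝ} (hη : 0 < η) {f : M → M} {φ ψ : Ch d M} {K : Set M}
    (h : Test d f φ ψ K) : ClsT d ω η f f φ ψ K where
  m := h.t
  z := fun y _ => by simp [hη.le]
  o := fun u _ => by simp [hη.le]
  w := fun u _ v _ huv => by
    simp only [sub_self, norm_zero]
    exact mul_nonneg hη.le (hω.pos _ (norm_pos_iff.2 (sub_ne_zero.2 huv))).le

theorem fin_min {n : ℕ} (e : Fin n → ℝ) (he : ∀ k, 0 < e k) : ∃ e0 : ℝ, 0 < e0 ∧ ∀ k, e0 ≤ e k := by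
  rcases Nat.eq_zero_or_pos n with rfl | hn
  · exact ⟨1, one_pos, fun k => k.elim0⟩
  · have : Nonempty (Fin n) := ⟨⟨0, hn⟩⟩
    obtain ⟨k0, hk0⟩ := Finite.exists_min e
    exact ⟨e k0, he k0, hk0⟩

/-- the main construction on a manifold -/
def T_TOPM : Prop := ∀ d : ℕ, 1 ≤ d → ∀ (M : Type) [TopologicalSpace M] [T2Space M]
  [CompactSpace M] [ChartedSpace (E d) M] [IsManifold 𝓘(ℝ, E d) 2 M] (f f' : M → M), DM d f f' →
  ∀ (κ : Ch d M) (x : M), κ ∈ MA d M → x ∈ κ.source → NWM f x → ∀ (nt : ℕ)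
  (φ ψ : Fin nt → Ch d M) (K : Fin nt → Set M), (∀ k, Test d f (φ k) (ψ k) (K k)) →
  ∀ (ω : ℝ → ℝ) (η δ : ℝ), Modulus ω → 0 < η → 0 < δ →
  ∃ (g g' : M → M) (q : M) (m : ℕ), DM d g g' ∧ (∀ k, ClsT d ω η f g (φ k) (ψ k) (K k)) ∧
    1 ≤ m ∧ q ∈ κ.source ∧ ‖κ q - κ x‖ ≤ δ ∧ g^[m] q = q

theorem asm_TOPM (hITAS : T_ITAS) (hITBS : T_ITBS) (hNSTS : T_NSTS) (hSELM : T_SELM)
    (hSTRM : T_STRM) (hMBX : T_MBX) (hMAXM : T_MAXM) (hNUMM : T_NUMM) (hATM : T_ATM)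
    (hORB : T_ORB) (hCLM : T_CLM) (hCL1 : T_CL1) (hFSTM : T_FSTM) (hINV : T_INV)
    (hBMD : T_BMD) : T_TOPM := by
  intro d hd M _ _ _ _ _ f f' hf κ x hκ hx hNW nt φ ψ K hT ω η δ hω hη hδ
  obtain ⟨C, hC1, hC⟩ := asm_REGM hITAS hITBS hNSTS hSELM hSTRM hMBX d hd
  -- the chart ball
  obtain ⟨ρ', hρ'0, hρ'⟩ := Metric.isOpen_iff.1 κ.open_target (κ x) (κ.map_source hx)
  obtain ⟨ρ0, hρ0, hρ01, hρ0t⟩ : ∃ ρ0 : ℝ, 0 < ρ0 ∧ ρ0 ≤ 1 ∧ closedBall (κ x) ρ0 ⊆ κ.target := by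
    refine ⟨min 1 (ρ' / 2), lt_min one_pos (by linarith), min_le_left _ _, ?_⟩
    refine (closedBall_subset_ball ?_).trans hρ'
    exact (min_le_right _ _).trans_lt (by linarith)
  obtain ⟨n0, A, Kh, r0, i0, hGA0, hAi, hKi⟩ := hATM d M κ (closedBall (κ x) ρ0) hκ
    (isCompact_closedBall _ _) hρ0t
  have hGA : GA d n0 A Kh (min r0 (ρ0 / 2)) := by
    refine ⟨hGA0.atl, hGA0.cpt, hGA0.sub, lt_min hGA0.rpos (by linarith), fun y => ?_⟩
    obtain ⟨i, h1, h2⟩ := hGA0.cov y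
    exact ⟨i, h1, (closedBall_subset_closedBall (min_le_left _ _)).trans h2⟩
  obtain ⟨s, L, hs, hL, horb⟩ := hORB d M n0 A Kh _ hGA f f' hf
  -- the tests
  choose e he hcl using fun k => hCLM d M n0 A Kh _ hGA f f' hf (φ k) (ψ k) (K k) (hT k) ω η hω hη
  obtain ⟨e0, he0, he0k⟩ := fin_min e he
  choose e1 he1 he12 hcl1 using fun k => hCL1 d M κ (closedBall (κ x) ρ0) hκ
    (isCompact_closedBall _ _) hρ0t f f' hf (φ k) (ψ k) (K k) (hT k) ω η hω hη
  obtain ⟨e2, he2, he2k⟩ := fin_min e1 he1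
  obtain ⟨t, c0, ht0, ht1, hc0, hfst⟩ := hFSTM d (min (min e2 (1 / 2)) (δ / 4)) ρ0
    (lt_min (lt_min he2 (by norm_num)) (by linarith)) hρ0 hρ01
  set δ1 : ℝ := min δ ρ0 / 16 with hδ1
  have hδ1pos : 0 < δ1 := by have := lt_min hδ hρ0; positivity
  have hδ1a : δ1 ≤ δ / 16 := by
    have := min_le_left δ ρ0; rw [hδ1]; linarith
  have hδ1b : δ1 ≤ ρ0 / 16 := by
    have := min_le_right δ ρ0; rw [hδ1]; linarith
  obtain ⟨sq, N0, hN0, hsq0, hsq⟩ := hNUMM ω hω L C (min δ1 s) e0 t c0 hL hC1 (lt_min hδ1pos hs)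
    he0 ht0 ht1 hc0
  -- the orbit segment
  have hV : {y | y ∈ κ.source ∧ ‖κ y - κ x‖ < min (Real.exp (-sq N0) / 2) δ1} ∈ 𝓝 x := by
    have h1 : ContinuousAt (fun y => ‖κ y - κ x‖) x :=
      ((κ.continuousAt hx).sub continuousAt_const).norm
    have h2 : ∀ᶠ y in 𝓝 x, ‖κ y - κ x‖ < min (Real.exp (-sq N0) / 2) δ1 := by
      apply h1.eventually_lt continuousAt_const
      simp only [sub_self, norm_zero]
      exact lt_min (by positivity) hδ1pos
    have h3 : ∀ᶠ y in 𝓝 x, y ∈ κ.source := κ.open_source.mem_nhds hx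
    exact h3.and h2
  obtain ⟨n, hn1, _, ⟨x', hx', rfl⟩, hx'n⟩ := hNW _ hV
  have hx'1 : x' ∈ κ.source := hx'.1
  have hx'2 : ‖κ x' - κ x‖ < min (Real.exp (-sq N0) / 2) δ1 := hx'.2
  have hx'3 : f^[n] x' ∈ κ.source := hx'n.1
  have hx'4 : ‖κ (f^[n] x') - κ x‖ < min (Real.exp (-sq N0) / 2) δ1 := hx'n.2
  have hρ1 : ∀ N : ℕ, δ1 * (2 - 1 / 2 ^ N) ≤ 2 * δ1 := by
    intro N
    have : (0:ℝ) < 1 / 2 ^ N := by positivity
    nlinarith
  have hρ2 : ∀ N : ℕ, δ1 ≤ δ1 * (2 - 1 / 2 ^ N) := by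
    intro N
    have : (1:ℝ) / 2 ^ N ≤ 1 := by
      rw [div_le_one (by positivity)]
      exact one_le_pow₀ (by norm_num)
    nlinarith
  have hρ3 : ∀ N : ℕ, δ1 * (2 - 1 / 2 ^ N) + δ1 / 2 ^ (N + 1) = δ1 * (2 - 1 / 2 ^ (N + 1)) := by
    intro N
    have : (2:ℝ) ^ N ≠ 0 := by positivity
    rw [pow_succ]
    field_simp
    ring
  rcases hMAXM M d (fun k => f^[k] x') (fun k => κ (f^[k] x')) {k | f^[k] x' ∈ κ.source} n (κ x)
    (fun N => Real.exp (-sq N)) (fun N => δ1 * (2 - 1 / 2 ^ N)) N0 (2 * δ1)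
    (fun i hi j hj hij => κ.injOn hi hj hij) hsq0 hρ1
    ⟨0, n, by omega, le_refl _, hx'1, hx'3, by
      have h1 := min_le_right (Real.exp (-sq N0) / 2) δ1
      have h2 := hρ2 N0
      simp only [iterate_zero, id]
      linarith, by
      have h1 := min_le_left (Real.exp (-sq N0) / 2) δ1
      simp only [iterate_zero, id]
      have h2 : κ (f^[n] x') - κ x' = (κ (f^[n] x') - κ x) - (κ x' - κ x) := by abel
      have h3 := norm_sub_le (κ (f^[n] x') - κ x) (κ x' - κ x)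
      rw [h2]
      linarith⟩ with h | h
  · obtain ⟨i, j, hij, hjn, hiS, hiR, hYY⟩ := h
    have hYY' : f^[i] x' = f^[j] x' := hYY
    have hiR' : ‖κ (f^[i] x') - κ x‖ ≤ 2 * δ1 := hiR
    refine ⟨f, f', f^[i] x', j - i, hf, fun k => ClsT.refl hω hη (hT k), by omega, hiS,
      by linarith, ?_⟩
    rw [← iterate_add_apply, Nat.sub_add_cancel hij.le, hYY']
  · obtain ⟨N, hNN, ⟨a0, b0, hab, hbn, haS, hbS, haR, hbD⟩, hmax⟩ := h
    replace haS : f^[a0] x' ∈ κ.source := haS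
    replace hbS : f^[b0] x' ∈ κ.source := hbS
    replace haR : ‖κ (f^[a0] x') - κ x‖ ≤ δ1 * (2 - 1 / 2 ^ N) := haR
    replace hbD : ‖κ (f^[b0] x') - κ (f^[a0] x')‖ ≤ Real.exp (-sq N) := hbD
    have haR' : ‖κ (f^[a0] x') - κ x‖ ≤ 2 * δ1 := haR.trans (hρ1 N)
    obtain ⟨n1, n2, n3, n4, n5, n6⟩ := hsq N hNN
    have hL1 : (1:ℝ) ≤ L := le_trans (by norm_num) hL
    have hL0 : (0:ℝ) < L := by linarith
    have hN1 : 1 ≤ N := hN0.trans hNN
    set b : M := f^[a0] x' with hb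
    by_cases hreg : ∀ k, 1 ≤ k → k ≤ N →
        ¬ (f^[k] b ∈ κ.source ∧ ‖κ (f^[k] b) - κ b‖ ≤ Real.exp (-(sq N / 3)))
    · obtain ⟨ι, Φ, Φ', hι, hcfg, ho1, ho2⟩ := horb b i0 (by rw [hAi]; exact haS) (by
        rw [hAi, hKi]
        apply closedBall_subset_closedBall'
        rw [dist_eq_norm]
        have := min_le_right r0 (ρ0 / 2)
        linarith)
      have hexp1 : Real.exp (-sq (N + 1)) ≤ 1 := by
        obtain ⟨_, k2, _⟩ := hsq (N + 1) (by omega)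
        have h1 : (1:ℝ) ≤ L ^ (15 * (N + 1)) := one_le_pow₀ hL1
        have h2 := Real.exp_pos (-sq (N + 1))
        nlinarith
      have hCN : C / N ≤ 1 / 2 := by
        have h1 : (1:ℝ) ≤ L ^ (2 * N) := one_le_pow₀ hL1
        exact (n6 1 one_pos le_rfl (by linarith)).h
      have hres := hC M n0 A Kh _ hGA f f' hf s L b i0 ι Φ Φ' hcfg (by rw [hAi]; exact haS)
        ho1 ho2 x' n N a0 b0 (Real.exp (-sq N)) (Real.exp (-sq (N + 1)))
        (Real.exp (-(sq N / 3))) hN1 (Real.exp_pos _) hab hbn rfl (by rw [hAi]; exact hbS)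
        (by rw [hAi]; exact hbD) n2 (n3.trans_le (min_le_right _ _)) n4 hCN
        (by
          rw [hAi, hKi]
          apply closedBall_subset_closedBall'
          rw [dist_eq_norm]
          have := min_le_left δ1 s
          linarith)
        (by rw [hAi]; exact hreg)
        (by
          rw [hAi]
          intro i j h1 h2 h3 h4 h5
          refine hmax i j h1 h2 h3 h4 ?_
          show ‖κ (f^[i] x') - κ x‖ ≤ δ1 * (2 - 1 / 2 ^ (N + 1))
          have e1 : κ (f^[i] x') - κ x = (κ (f^[i] x') - κ b) + (κ b - κ x) := by abel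
          have e2 := norm_add_le (κ (f^[i] x') - κ b) (κ b - κ x)
          have e3 := hρ3 N
          have e4 : min δ1 s / 2 ^ (N + 1) ≤ δ1 / 2 ^ (N + 1) :=
            div_le_div_of_nonneg_right (min_le_left _ _) (by positivity)
          rw [e1]
          linarith)
      obtain ⟨D', u, Sg, H, H', q, m, hD0, hD'D, hD1, hH, hMB, hm, hqs, hqb, hret⟩ := hres
      have hD'1 : D' ≤ 1 := by
        have h1 : (1:ℝ) ≤ L ^ (15 * N) := one_le_pow₀ hL1
        have h2 := Real.exp_pos (-sq N)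
        nlinarith
      have hL3 : (0:ℝ) < L ^ (3 * N) := pow_pos hL0 _
      have hCpos : (0:ℝ) < C := by linarith
      have hMB' := hMB.mono (σ' := C * L ^ (3 * N) * Real.exp (-sq N))
        (mul_le_mul_of_nonneg_left hD'D (by positivity))
      rw [hAi] at hqs hqb
      refine ⟨f ∘ H, H' ∘ f', q, m, hf.comp hH, fun k => ?_, hm, hqs, ?_, hret⟩
      · exact hcl k _ _ _ _ _ _ _ _ hMB' ((n6 D' hD0 hD'1 hD1).mono hω (he0k k))
      · have h1 : κ q - κ x = (κ q - κ b) + (κ b - κ x) := by abel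
        have h2 := norm_add_le (κ q - κ b) (κ b - κ x)
        have h3 : min δ1 s / 2 ^ (N + 1) ≤ δ1 := by
          refine (div_le_self (lt_min hδ1pos hs).le ?_).trans (min_le_left _ _)
          exact one_le_pow₀ (by norm_num)
        have h4 : (0:ℝ) < L ^ (2 * N) * Real.exp (-sq N) :=
          mul_pos (pow_pos hL0 _) (Real.exp_pos _)
        rw [h1]
        nlinarith
    · push Not at hreg
      obtain ⟨k, hk1, hkN, hks, hk⟩ := hreg
      have h1 : Real.exp (-(sq N / 3)) ≤ c0 * t ^ k := by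
        refine n5.trans (mul_le_mul_of_nonneg_left ?_ hc0.le)
        exact pow_le_pow_of_le_one ht0.le ht1.le hkN
      obtain ⟨u, q, m, hu, hm, hqs, hqb, hret⟩ := hfst M f κ (κ x) hρ0t b k hk1 haS
        (by linarith) hks (hk.trans h1)
      have hu1 : Bp d (closedBall (κ x) ρ0) (1 / 2) (1 / 2) (1 / 2) u :=
        hu.mono subset_rfl ((min_le_left _ _).trans (min_le_right _ _))
          ((min_le_left _ _).trans (min_le_right _ _)) ((min_le_left _ _).trans (min_le_right _ _))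
      obtain ⟨u', hu', hi1, hi2⟩ := hINV d _ _ _ _ u hu1 le_rfl
      obtain ⟨hDM, _, _⟩ := hBMD d M κ (closedBall (κ x) ρ0) _ _ _ _ _ _ u u' hκ
        (isCompact_closedBall _ _) hρ0t hu1 hu' hi1 hi2
      refine ⟨f ∘ bmp κ u, bmp κ u' ∘ f', q, m, hf.comp hDM, fun k => ?_, hm, hqs, ?_, hret⟩
      · have h2 : min (min e2 (1 / 2)) (δ / 4) ≤ e1 k :=
          ((min_le_left _ _).trans (min_le_left _ _)).trans (he2k k)
        exact hcl1 k u (hu.mono subset_rfl h2 h2 h2)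
      · have h2 : κ q - κ x = (κ q - κ b) + (κ b - κ x) := by abel
        have h3 := norm_add_le (κ q - κ b) (κ b - κ x)
        have h4 := min_le_right (min e2 (1 / 2)) (δ / 4)
        rw [h2]
        linarith

end Pool.Agent.H88.CM
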