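import Pool.Agent.H88.CM.CRM

/-! Closing lemma on compact manifolds: composition with a small bump on the left. -/

open Set Function Topology Metric Filter
open scoped Manifold

namespace Pool.Agent.H88.CM

open Pool.Agent.H88.CL

/-- the domain of a test -/
theorem Test.dom {d : ℕ} {M : Type} [TopologicalSpace M] [ChartedSpace (E d) M] {f : M → M}
    {φ ψ : Ch d M} {K : Set M} (hT : Test d f φ ψ K)
    (hf : ContMDiff 𝓘(ℝ, E d) 𝓘(ℝ, E d) 2 f) :
    IsOpen (φ.target ∩ φ.symm ⁻¹' (f ⁻¹' ψ.source)) ∧ IsCompact (φ '' K) ∧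
    φ '' K ⊆ φ.target ∩ φ.symm ⁻¹' (f ⁻¹' ψ.source) ∧
    ContDiffOn ℝ 2 (rep φ ψ f) (φ.target ∩ φ.symm ⁻¹' (f ⁻¹' ψ.source)) := by
  refine ⟨φ.isOpen_inter_preimage_symm (ψ.open_source.preimage hf.continuous),
    hT.c.image_of_continuousOn (φ.continuousOn.mono hT.s), ?_, ?_⟩
  · rintro _ ⟨y, hy, rfl⟩
    refine ⟨φ.map_source (hT.s hy), ?_⟩
    rw [mem_preimage, mem_preimage, φ.left_inv (hT.s hy)]
    exact hT.t y hy
  · intro w hw
    exact (rep_contDiffAt hT.a hT.b hf hw.1 hw.2).contDiffWithinAt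

theorem pf_CLL (h1 : T_CL1) (h2 : T_TRE) (h3 : T_INV) (h4 : T_BMD) : T_CLL := by
  intro d M _ _ _ _ _ κ Kκ hκ hKκ hKt f f' hf φ ψ K hT ω η hω hη
  obtain ⟨δ0, hδ0, hen⟩ := Test.enlarge hT hf.c.continuous
  obtain ⟨hO, hS, hSO, hFO⟩ := Test.dom hT hf.c
  set F : E d → E d := rep φ ψ f with hF
  obtain ⟨r, CF, hr, hCF, hTR⟩ := h2 d _ _ F hO hS hSO hFO
  set δ : ℝ := min δ0 r with hδd
  have hδ : 0 < δ := lt_min hδ0 hr
  obtain ⟨hT', hSt, hSc⟩ := hen δ hδ (min_le_left _ _)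
  set S' : Set (E d) := cthickening δ (φ '' K) with hS'
  set K' : Set M := φ.symm '' S' with hK'
  have hφK' : ∀ v ∈ S', φ.symm v ∈ K' := fun v hv => mem_image_of_mem _ hv
  have hφK'' : ∀ v ∈ S', v ∈ φ '' K' := fun v hv =>
    ⟨φ.symm v, hφK' v hv, φ.right_inv (hSt hv)⟩
  have hball : ∀ v ∈ φ '' K, closedBall v δ ⊆ S' := fun v hv =>
    closedBall_subset_cthickening hv δ
  have hmem : ∀ v ∈ φ '' K, v ∈ S' := fun v hv => hball v hv (mem_closedBall_self hδ.le)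
  have hFb : ∀ v ∈ S', ‖fderiv ℝ F v‖ ≤ CF := by
    intro v hv
    rw [hS', hS.cthickening_eq_biUnion_closedBall hδ.le, mem_iUnion₂] at hv
    obtain ⟨c, hc, hvc⟩ := hv
    exact (hTR c hc).2.1 v (closedBall_subset_closedBall (min_le_right _ _) hvc)
  -- the test for the left factor
  have hTe : Test d (id : M → M) ψ ψ (f '' K') := by
    refine ⟨hT.b, hT.b, hT'.c.image hf.c.continuous, ?_, ?_⟩
    · rintro _ ⟨y, hy, rfl⟩
      exact hT'.t y hy
    · rintro _ ⟨y, hy, rfl⟩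
      exact hT'.t y hy
  obtain ⟨δ2, hδ2, hen2⟩ := Test.enlarge hTe continuous_id
  obtain ⟨hT2, hQt, hQc⟩ := hen2 δ2 hδ2 le_rfl
  set Q : Set (E d) := cthickening δ2 (ψ '' (f '' K')) with hQ
  set K2 : Set M := ψ.symm '' Q with hK2
  obtain ⟨R, hR⟩ := hQc.isBounded.exists_norm_le
  have hR0 : ∀ a ∈ Q, ∀ b ∈ Q, ‖a - b‖ ≤ 2 * |R| := by
    intro a ha b hb
    have e1 := hR a ha
    have e2 := hR b hb
    have e3 := norm_sub_le a b
    have e4 := le_abs_self R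
    linarith
  set C1 : ℝ := CF + 1 with hC1
  set C3 : ℝ := C1 + 2 * |R| / δ with hC3
  set C4 : ℝ := CF * (r + 2) / ω r with hC4
  have hωr : 0 < ω r := hω.pos r hr
  have hC1pos : 2 ≤ C1 := by rw [hC1]; linarith
  have hRd : 0 ≤ 2 * |R| / δ := by positivity
  have hC3pos : 1 ≤ C3 := by rw [hC3]; linarith
  have hCFpos : 0 < CF := by linarith
  have hC4pos : 0 ≤ C4 := by positivity
  set B : ℝ := C3 * C1 + C4 + 1 + C1 with hB
  have hBpos : 1 ≤ B := by
    have : 0 ≤ C3 * C1 := by positivity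
    rw [hB]; linarith
  set η1 : ℝ := η / (4 * B) with hη1
  have hη1pos : 0 < η1 := by positivity
  have hη1B : η1 * B = η / 4 := by rw [hη1]; field_simp
  have hη1le : η1 ≤ η / 4 := by nlinarith
  have hη1C1 : η1 * C1 ≤ η / 4 := by
    rw [← hη1B]
    refine mul_le_mul_of_nonneg_left ?_ hη1pos.le
    have : 0 ≤ C3 * C1 := by positivity
    rw [hB]; linarith
  have hη1C : η1 * (C3 * C1 + (C4 + 1)) ≤ η / 4 := by
    rw [← hη1B]
    refine mul_le_mul_of_nonneg_left ?_ hη1pos.le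
    rw [hB]; linarith
  obtain ⟨e1, he1, he12, hc1⟩ := h1 d M κ Kκ hκ hKκ hKt id id (DM.id' d M) ψ ψ K2 hT2 ω η1
    hω hη1pos
  set η' : ℝ := min (min (η / 4) 1) δ2 with hη'
  have hη'pos : 0 < η' := lt_min (lt_min (by linarith) one_pos) hδ2
  have hη'a : η' ≤ η / 4 := (min_le_left _ _).trans (min_le_left _ _)
  have hη'b : η' ≤ 1 := (min_le_left _ _).trans (min_le_right _ _)
  have hη'c : η' ≤ δ2 := min_le_right _ _
  refine ⟨K', η', e1, hT', hη'pos, he1, he12, ?_⟩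
  intro g g' hg hcl u hu
  obtain ⟨τ', hτ⟩ := bmp_DM h3 h4 hκ hKκ hKt he12 hu
  have hc1 := hc1 u hu
  rw [id_comp] at hc1
  set τ : M → M := bmp κ u with hτd
  set Sm : E d → E d := rep ψ ψ τ with hSm
  set G : E d → E d := rep φ ψ g with hG
  have hψQ : ∀ v ∈ Q, v ∈ ψ '' K2 := fun v hv =>
    ⟨ψ.symm v, mem_image_of_mem _ hv, ψ.right_inv (hQt hv)⟩
  -- facts on `Sm` on `Q`
  have so : ∀ v ∈ Q, ‖fderiv ℝ Sm v - ContinuousLinearMap.id ℝ (E d)‖ ≤ η1 := by
    intro v hv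
    have := hc1.o v (hψQ v hv)
    rwa [fderiv_rep_id (hQt hv)] at this
  have sw : ∀ v ∈ Q, ∀ v' ∈ Q, v ≠ v' →
      ‖fderiv ℝ Sm v - fderiv ℝ Sm v'‖ ≤ η1 * ω ‖v - v'‖ := by
    intro v hv v' hv' hne
    have := hc1.w v (hψQ v hv) v' (hψQ v' hv') hne
    rwa [fderiv_rep_id (hQt hv), fderiv_rep_id (hQt hv'), sub_sub_sub_cancel_right] at this
  -- facts on `G` on `S'`
  have gs : ∀ v ∈ S', g (φ.symm v) ∈ ψ.source := fun v hv => hcl.m _ (hφK' v hv)
  have gQ : ∀ v ∈ S', G v ∈ Q := by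
    intro v hv
    refine closedBall_subset_cthickening (mem_image_of_mem ψ
      (mem_image_of_mem f (hφK' v hv))) δ2 ?_
    rw [mem_closedBall, dist_eq_norm]
    exact (hcl.z _ (hφK' v hv)).trans hη'c
  have gK2 : ∀ v ∈ S', g (φ.symm v) ∈ K2 := fun v hv =>
    ⟨G v, gQ v hv, ψ.left_inv (gs v hv)⟩
  have ts : ∀ v ∈ S', τ (g (φ.symm v)) ∈ ψ.source := fun v hv => hc1.m _ (gK2 v hv)
  have gd : ∀ v ∈ S', DifferentiableAt ℝ G v := fun v hv =>
    rep_diff hT.a hT.b hg.c (hSt hv) (gs v hv)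
  have gn : ∀ v ∈ S', ‖fderiv ℝ G v‖ ≤ C1 := by
    intro v hv
    have e1 := hcl.o v (hφK'' v hv)
    have e2 := hFb v hv
    calc ‖fderiv ℝ G v‖ = ‖(fderiv ℝ G v - fderiv ℝ F v) + fderiv ℝ F v‖ := by
          rw [sub_add_cancel]
      _ ≤ η' + CF := (norm_add_le _ _).trans (add_le_add e1 e2)
      _ ≤ C1 := by rw [hC1]; linarith
  have hyK : ∀ y ∈ K, φ.symm (φ y) = y := fun y hy => φ.left_inv (hT.s hy)
  have hder : ∀ v ∈ φ '' K, fderiv ℝ (rep φ ψ (τ ∘ g)) v - fderiv ℝ F v =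
      (fderiv ℝ Sm (G v) - ContinuousLinearMap.id ℝ (E d)).comp (fderiv ℝ G v) +
        (fderiv ℝ G v - fderiv ℝ F v) := by
    intro v hv
    rw [fderiv_rep_comp hT.a hT.b hT.b hτ.c hg.c (hSt (hmem v hv)) (gs v (hmem v hv))
      (ts v (hmem v hv)), ContinuousLinearMap.sub_comp, ContinuousLinearMap.id_comp]
    abel
  refine ⟨?_, ?_, ?_, ?_⟩
  · intro y hy
    have := ts _ (hmem _ (mem_image_of_mem φ hy))
    rwa [hyK y hy] at this
  · intro y hy
    have h5 := hc1.z _ (gK2 _ (hmem _ (mem_image_of_mem φ hy)))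
    have h6 := hcl.z _ (hφK' _ (hmem _ (mem_image_of_mem φ hy)))
    rw [hyK y hy] at h5 h6
    calc ‖ψ ((τ ∘ g) y) - ψ (f y)‖ = ‖(ψ (τ (g y)) - ψ (id (g y))) +
          (ψ (g y) - ψ (f y))‖ := by rw [comp_apply, id_eq, sub_add_sub_cancel]
      _ ≤ η1 + η' := (norm_add_le _ _).trans (add_le_add h5 h6)
      _ ≤ η := by linarith
  · intro v hv
    rw [hder v hv]
    have h5 := so _ (gQ v (hmem v hv))
    have h6 := hcl.o v (hφK'' v (hmem v hv))
    have h7 := gn v (hmem v hv)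
    calc ‖(fderiv ℝ Sm (G v) - ContinuousLinearMap.id ℝ (E d)).comp (fderiv ℝ G v) +
        (fderiv ℝ G v - fderiv ℝ F v)‖
        ≤ ‖(fderiv ℝ Sm (G v) - ContinuousLinearMap.id ℝ (E d)).comp (fderiv ℝ G v)‖ +
          ‖fderiv ℝ G v - fderiv ℝ F v‖ := norm_add_le _ _
      _ ≤ η1 * C1 + η' := add_le_add ((ContinuousLinearMap.opNorm_comp_le _ _).trans
          (mul_le_mul h5 h7 (norm_nonneg _) hη1pos.le)) h6
      _ ≤ η := by linarith
  · intro v hv v' hv' hne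
    rw [hder v hv, hder v' hv', comp_split]
    have hρ : 0 < ‖v - v'‖ := norm_pos_iff.2 (sub_ne_zero.2 hne)
    have hωρ := hω.pos _ hρ
    have h6 := hcl.w v (hφK'' v (hmem v hv)) v' (hφK'' v' (hmem v' hv')) hne
    have h7 := gn v (hmem v hv)
    have h9 := so _ (gQ v' (hmem v' hv'))
    -- Lipschitz bound of `G`
    have hlip : ‖G v - G v'‖ ≤ C3 * ‖v - v'‖ := by
      refine lip_of_ball (R := 2 * |R|) (by linarith) hδ (hball v hv) gd
        (fun w hw => (gn w hw).trans (by rw [hC3]; linarith))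
        (hR0 _ (gQ v (hmem v hv)) _ (gQ v' (hmem v' hv'))) ?_
      have : 2 * |R| / δ * δ = 2 * |R| := div_mul_cancel₀ _ hδ.ne'
      rw [hC3, add_mul, this]
      have : 0 ≤ C1 * δ := by positivity
      linarith
    have hA : ‖(fderiv ℝ Sm (G v) - ContinuousLinearMap.id ℝ (E d)) -
        (fderiv ℝ Sm (G v') - ContinuousLinearMap.id ℝ (E d))‖ ≤ η1 * (C3 * ω ‖v - v'‖) := by
      rw [sub_sub_sub_cancel_right]
      rcases eq_or_ne (G v) (G v') with h | h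
      · rw [h, sub_self, norm_zero]; positivity
      · have e1 := sw _ (gQ v (hmem v hv)) _ (gQ v' (hmem v' hv')) h
        have hpos : 0 < ‖G v - G v'‖ := norm_pos_iff.2 (sub_ne_zero.2 h)
        refine e1.trans (mul_le_mul_of_nonneg_left ?_ hη1pos.le)
        exact (hω.mono _ _ hpos hlip).trans (Modulus.mul_le hω hρ hC3pos)
    -- modulus of continuity of the derivative of `F`
    have hF4 : ‖fderiv ℝ F v - fderiv ℝ F v'‖ ≤ C4 * ω ‖v - v'‖ := by
      rcases le_total ‖v - v'‖ r with h | h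
      · have e1 := (hTR v hv).2.2 v (mem_closedBall_self hr.le) v' (by
          rw [mem_closedBall, dist_eq_norm, norm_sub_rev]; exact h)
        have e2 := hω.conc _ _ hρ h
        have e3 : ‖v - v'‖ ≤ r / ω r * ω ‖v - v'‖ := by
          rw [div_mul_eq_mul_div, le_div_iff₀ hωr]; exact e2
        calc ‖fderiv ℝ F v - fderiv ℝ F v'‖ ≤ CF * ‖v - v'‖ := e1
          _ ≤ CF * (r / ω r * ω ‖v - v'‖) := mul_le_mul_of_nonneg_left e3 hCFpos.le
          _ = CF * r / ω r * ω ‖v - v'‖ := by ring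
          _ ≤ C4 * ω ‖v - v'‖ := by
              refine mul_le_mul_of_nonneg_right ?_ hωρ.le
              rw [hC4]
              gcongr
              linarith
      · have e1 := hFb v (hmem v hv)
        have e2 := hFb v' (hmem v' hv')
        have e3 := hω.mono _ _ hr h
        have e4 := norm_sub_le (fderiv ℝ F v) (fderiv ℝ F v')
        calc ‖fderiv ℝ F v - fderiv ℝ F v'‖ ≤ CF * 2 := by linarith
          _ = CF * 2 / ω r * ω r := by field_simp
          _ ≤ CF * 2 / ω r * ω ‖v - v'‖ := mul_le_mul_of_nonneg_left e3 (by positivity)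
          _ ≤ C4 * ω ‖v - v'‖ := by
              refine mul_le_mul_of_nonneg_right ?_ hωρ.le
              rw [hC4]
              gcongr
              linarith
    have hG4 : ‖fderiv ℝ G v - fderiv ℝ G v'‖ ≤ (C4 + 1) * ω ‖v - v'‖ := by
      have e1 : fderiv ℝ G v - fderiv ℝ G v' = ((fderiv ℝ G v - fderiv ℝ F v) -
          (fderiv ℝ G v' - fderiv ℝ F v')) + (fderiv ℝ F v - fderiv ℝ F v') := by abel
      rw [e1]
      have e2 : η' * ω ‖v - v'‖ ≤ 1 * ω ‖v - v'‖ := mul_le_mul_of_nonneg_right hη'b hωρ.le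
      refine (norm_add_le _ _).trans ((add_le_add h6 hF4).trans ?_)
      linarith
    have b1 : ‖((fderiv ℝ Sm (G v) - ContinuousLinearMap.id ℝ (E d)) -
        (fderiv ℝ Sm (G v') - ContinuousLinearMap.id ℝ (E d))).comp (fderiv ℝ G v)‖ ≤
        η1 * (C3 * ω ‖v - v'‖) * C1 :=
      (ContinuousLinearMap.opNorm_comp_le _ _).trans
        (mul_le_mul hA h7 (norm_nonneg _) (by positivity))
    have b2 : ‖(fderiv ℝ Sm (G v') - ContinuousLinearMap.id ℝ (E d)).comp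
        (fderiv ℝ G v - fderiv ℝ G v')‖ ≤ η1 * ((C4 + 1) * ω ‖v - v'‖) :=
      (ContinuousLinearMap.opNorm_comp_le _ _).trans
        (mul_le_mul h9 hG4 (norm_nonneg _) (by positivity))
    refine (norm_add_le _ _).trans ((add_le_add ((norm_add_le _ _).trans (add_le_add b1 b2))
      h6).trans ?_)
    have c1 : η1 * (C3 * C1 + (C4 + 1)) * ω ‖v - v'‖ ≤ η / 4 * ω ‖v - v'‖ :=
      mul_le_mul_of_nonneg_right hη1C hωρ.le
    have c2 : η' * ω ‖v - v'‖ ≤ η / 4 * ω ‖v - v'‖ := mul_le_mul_of_nonneg_right hη'a hωρ.le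
    have c4 : 0 ≤ η * ω ‖v - v'‖ := by positivity
    nlinarith

end Pool.Agent.H88.CM
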