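import Pool.Agent.H88.CM.Cha

/-! Closing lemma on compact manifolds: composition with a small bump on the right. -/

open Set Function Topology Metric Filter
open scoped Manifold

namespace Pool.Agent.H88.CM

open Pool.Agent.H88.CL

theorem DM.id' (d : ℕ) (M : Type) [TopologicalSpace M] [ChartedSpace (E d) M] :
    DM d (id : M → M) id :=
  ⟨contMDiff_id, contMDiff_id, fun _ => rfl, fun _ => rfl⟩

/-- A small bump is a `C²` diffeomorphism. -/
theorem bmp_DM (h3 : T_INV) (h4 : T_BMD) {d : ℕ} {M : Type} [TopologicalSpace M] [T2Space M]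
    [ChartedSpace (E d) M] [IsManifold 𝓘(ℝ, E d) 2 M] {κ : Ch d M} {K : Set (E d)}
    (hκ : κ ∈ MA d M) (hK : IsCompact K) (hKt : K ⊆ κ.target) {e : ℝ} (he : e ≤ 1 / 2)
    {u : E d → E d} (hu : Bp d K e e e u) : ∃ τ' : M → M, DM d (bmp κ u) τ' := by
  obtain ⟨u', hu', hi1, hi2⟩ := h3 d K e e e u hu he
  exact ⟨bmp κ u', (h4 d M κ K _ _ _ _ _ _ u u' hκ hK hKt hu hu' hi1 hi2).1⟩

/-- The mean value inequality at small scales together with a bound at large scales. -/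
theorem lip_of_ball {d : ℕ} {T : E d → E d} {S' : Set (E d)} {C δ R : ℝ} {w w' : E d}
    (hC : 0 ≤ C) (hδ : 0 < δ) (hb : closedBall w δ ⊆ S') (hd : ∀ v ∈ S', DifferentiableAt ℝ T v)
    (hn : ∀ v ∈ S', ‖fderiv ℝ T v‖ ≤ C) (hT : ‖T w - T w'‖ ≤ R)
    (hRC : R ≤ C * δ) : ‖T w - T w'‖ ≤ C * ‖w - w'‖ := by
  rcases le_total ‖w - w'‖ δ with h | h
  · refine (convex_closedBall w δ).norm_image_sub_le_of_norm_fderiv_le
      (fun v hv => hd v (hb hv)) (fun v hv => hn v (hb hv)) ?_ (mem_closedBall_self hδ.le)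
    rw [mem_closedBall, dist_eq_norm, norm_sub_rev]
    exact h
  · calc ‖T w - T w'‖ ≤ R := hT
      _ ≤ C * δ := hRC
      _ ≤ C * ‖w - w'‖ := mul_le_mul_of_nonneg_left h hC

/-- bookkeeping for products of linear maps -/
theorem comp_split {d : ℕ} (A1 A2 B1 B2 R1 R2 : E d →L[ℝ] E d) :
    (A1.comp B1 + R1) - (A2.comp B2 + R2) =
      ((A1 - A2).comp B1 + A2.comp (B1 - B2)) + (R1 - R2) := by
  rw [ContinuousLinearMap.sub_comp, ContinuousLinearMap.comp_sub]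
  abel

theorem pf_CRM (h1 : T_CL1) (h3 : T_INV) (h4 : T_BMD) : T_CRM := by
  intro d M _ _ _ _ _ κ Kκ hκ hKκ hKt f f' hf φ ψ K hT ω η hω hη
  obtain ⟨δ0, hδ0, hen⟩ := Test.enlarge hT hf.c.continuous
  obtain ⟨hT', hSt, hSc⟩ := hen δ0 hδ0 le_rfl
  set S' : Set (E d) := cthickening δ0 (φ '' K) with hS'
  set K' : Set M := φ.symm '' S' with hK'
  have hφK' : ∀ v ∈ S', φ.symm v ∈ K' := fun v hv => mem_image_of_mem _ hv
  have hφK'' : ∀ v ∈ S', v ∈ φ '' K' := fun v hv =>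
    ⟨φ.symm v, hφK' v hv, φ.right_inv (hSt hv)⟩
  have hTid : Test d (id : M → M) φ φ K' := ⟨hT.a, hT.a, hT'.c, hT'.s, fun y hy => hT'.s hy⟩
  set η1 : ℝ := min (min (η / 8) (1 / 2)) (δ0 / 2) with hη1
  have hη1pos : 0 < η1 := lt_min (lt_min (by linarith) (by norm_num)) (by linarith)
  have hη1a : η1 ≤ η / 8 := (min_le_left _ _).trans (min_le_left _ _)
  have hη1b : η1 ≤ 1 / 2 := (min_le_left _ _).trans (min_le_right _ _)
  have hη1c : η1 ≤ δ0 / 2 := min_le_right _ _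
  obtain ⟨e1, he1, he12, hc1⟩ := h1 d M κ Kκ hκ hKκ hKt id id (DM.id' d M) φ φ K' hTid ω η1
    hω hη1pos
  obtain ⟨e2, he2, he22, hc2⟩ := h1 d M κ Kκ hκ hKκ hKt f f' hf φ ψ K hT ω η1 hω hη1pos
  refine ⟨K', η / 8, min e1 e2, hT', by linarith, lt_min he1 he2, (min_le_left _ _).trans he12, ?_⟩
  intro g g' hg hcl u hu
  have hu1 : Bp d Kκ e1 e1 e1 u :=
    hu.mono subset_rfl (min_le_left _ _) (min_le_left _ _) (min_le_left _ _)
  have hu2 : Bp d Kκ e2 e2 e2 u :=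
    hu.mono subset_rfl (min_le_right _ _) (min_le_right _ _) (min_le_right _ _)
  obtain ⟨τ', hτ⟩ := bmp_DM h3 h4 hκ hKκ hKt he12 hu1
  have hc1 := hc1 u hu1
  rw [id_comp] at hc1
  have hc2 := hc2 u hu2
  set τ : M → M := bmp κ u with hτd
  set T : E d → E d := rep φ φ τ with hTd
  set F : E d → E d := rep φ ψ f with hF
  set G : E d → E d := rep φ ψ g with hG
  -- facts on `T` on `S'`
  have qtm : ∀ v ∈ S', τ (φ.symm v) ∈ φ.source := fun v hv => hc1.m _ (hφK' v hv)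
  have qtz : ∀ v ∈ S', ‖T v - v‖ ≤ η1 := by
    intro v hv
    have := hc1.z _ (hφK' v hv)
    rwa [id_eq, φ.right_inv (hSt hv)] at this
  have qto : ∀ v ∈ S', ‖fderiv ℝ T v - ContinuousLinearMap.id ℝ (E d)‖ ≤ η1 := by
    intro v hv
    have := hc1.o v (hφK'' v hv)
    rwa [fderiv_rep_id (hSt hv)] at this
  have qtn : ∀ v ∈ S', ‖fderiv ℝ T v‖ ≤ 2 := by
    intro v hv
    have h5 := qto v hv
    calc ‖fderiv ℝ T v‖ = ‖(fderiv ℝ T v - ContinuousLinearMap.id ℝ (E d)) +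
          ContinuousLinearMap.id ℝ (E d)‖ := by rw [sub_add_cancel]
      _ ≤ η1 + 1 := (norm_add_le _ _).trans (add_le_add h5 ContinuousLinearMap.norm_id_le)
      _ ≤ 2 := by linarith
  have qtw : ∀ v ∈ S', ∀ v' ∈ S', v ≠ v' →
      ‖fderiv ℝ T v - fderiv ℝ T v'‖ ≤ η1 * ω ‖v - v'‖ := by
    intro v hv v' hv' hne
    have := hc1.w v (hφK'' v hv) v' (hφK'' v' hv') hne
    rwa [fderiv_rep_id (hSt hv), fderiv_rep_id (hSt hv'), sub_sub_sub_cancel_right] at this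
  have qtd : ∀ v ∈ S', DifferentiableAt ℝ T v := fun v hv =>
    rep_diff hT.a hT.a hτ.c (hSt hv) (qtm v hv)
  -- points of `φ '' K`
  have hball : ∀ v ∈ φ '' K, closedBall v δ0 ⊆ S' := fun v hv =>
    closedBall_subset_cthickening hv δ0
  have hmem : ∀ v ∈ φ '' K, v ∈ S' := fun v hv => hball v hv (mem_closedBall_self hδ0.le)
  have hTS : ∀ v ∈ φ '' K, T v ∈ S' := by
    intro v hv
    refine hball v hv ?_
    rw [mem_closedBall, dist_eq_norm]
    exact (qtz v (hmem v hv)).trans (by linarith)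
  have hTsymm : ∀ v ∈ φ '' K, φ.symm (T v) = τ (φ.symm v) := fun v hv =>
    φ.left_inv (qtm v (hmem v hv))
  have hτK' : ∀ v ∈ φ '' K, τ (φ.symm v) ∈ K' := by
    intro v hv
    rw [← hTsymm v hv]
    exact hφK' _ (hTS v hv)
  have hyK : ∀ y ∈ K, φ.symm (φ y) = y := fun y hy => φ.left_inv (hT.s hy)
  have hgψ : ∀ v ∈ φ '' K, g (τ (φ.symm v)) ∈ ψ.source := fun v hv => hcl.m _ (hτK' v hv)
  have hfψ : ∀ v ∈ φ '' K, f (τ (φ.symm v)) ∈ ψ.source := fun v hv => hT'.t _ (hτK' v hv)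
  have hder : ∀ v ∈ φ '' K, fderiv ℝ (rep φ ψ (g ∘ τ)) v - fderiv ℝ F v =
      (fderiv ℝ G (T v) - fderiv ℝ F (T v)).comp (fderiv ℝ T v) +
        (fderiv ℝ (rep φ ψ (f ∘ τ)) v - fderiv ℝ F v) := by
    intro v hv
    rw [fderiv_rep_comp hT.a hT.a hT.b hg.c hτ.c (hSt (hmem v hv)) (qtm v (hmem v hv)) (hgψ v hv),
      fderiv_rep_comp hT.a hT.a hT.b hf.c hτ.c (hSt (hmem v hv)) (qtm v (hmem v hv)) (hfψ v hv),
      ContinuousLinearMap.sub_comp]
    abel
  have hω0 : ∀ r, 0 < r → 0 < ω r := hω.pos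
  refine ⟨?_, ?_, ?_, ?_⟩
  · intro y hy
    have := hgψ _ (mem_image_of_mem φ hy)
    rwa [hyK y hy] at this
  · intro y hy
    have h5 := hcl.z _ (hτK' _ (mem_image_of_mem φ hy))
    have h6 := hc2.z y hy
    rw [hyK y hy] at h5
    calc ‖ψ ((g ∘ τ) y) - ψ (f y)‖ = ‖(ψ (g (τ y)) - ψ (f (τ y))) +
          (ψ ((f ∘ τ) y) - ψ (f y))‖ := by rw [comp_apply, comp_apply, sub_add_sub_cancel]
      _ ≤ η / 8 + η1 := (norm_add_le _ _).trans (add_le_add h5 h6)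
      _ ≤ η := by linarith
  · intro v hv
    rw [hder v hv]
    have h5 := hcl.o _ (hφK'' _ (hTS v hv))
    have h6 := hc2.o v hv
    have h7 := qtn v (hmem v hv)
    calc ‖(fderiv ℝ G (T v) - fderiv ℝ F (T v)).comp (fderiv ℝ T v) +
        (fderiv ℝ (rep φ ψ (f ∘ τ)) v - fderiv ℝ F v)‖
        ≤ ‖(fderiv ℝ G (T v) - fderiv ℝ F (T v)).comp (fderiv ℝ T v)‖ +
          ‖fderiv ℝ (rep φ ψ (f ∘ τ)) v - fderiv ℝ F v‖ := norm_add_le _ _
      _ ≤ ‖fderiv ℝ G (T v) - fderiv ℝ F (T v)‖ * ‖fderiv ℝ T v‖ + η1 :=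
          add_le_add (ContinuousLinearMap.opNorm_comp_le _ _) h6
      _ ≤ η / 8 * 2 + η1 := by
          have := mul_le_mul h5 h7 (norm_nonneg _) (by linarith)
          linarith
      _ ≤ η := by linarith
  · intro v hv v' hv' hne
    rw [hder v hv, hder v' hv']
    have hρ : 0 < ‖v - v'‖ := norm_pos_iff.2 (sub_ne_zero.2 hne)
    have hωρ := hω0 _ hρ
    have h6 := hc2.w v hv v' hv' hne
    have h7 := qtn v (hmem v hv)
    have h8 := qtw v (hmem v hv) v' (hmem v' hv') hne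
    have h9 := hcl.o _ (hφK'' _ (hTS v' hv'))
    -- Lipschitz bound of `T`
    have hlip : ‖T v - T v'‖ ≤ 2 * ‖v - v'‖ := by
      rcases le_total ‖v - v'‖ δ0 with h | h
      · refine (convex_closedBall v δ0).norm_image_sub_le_of_norm_fderiv_le
          (fun w hw => qtd w (hball v hv hw)) (fun w hw => qtn w (hball v hv hw)) ?_
          (mem_closedBall_self hδ0.le)
        rw [mem_closedBall, dist_eq_norm, norm_sub_rev]
        exact h
      · have e1 := qtz v (hmem v hv)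
        have e2 := qtz v' (hmem v' hv')
        calc ‖T v - T v'‖ = ‖(T v - v) + (v - v') - (T v' - v')‖ := by congr 1; abel
          _ ≤ ‖(T v - v) + (v - v')‖ + ‖T v' - v'‖ := norm_sub_le _ _
          _ ≤ (‖T v - v‖ + ‖v - v'‖) + ‖T v' - v'‖ := by
              have := norm_add_le (T v - v) (v - v'); linarith
          _ ≤ 2 * ‖v - v'‖ := by linarith
    have hD : ‖(fderiv ℝ G (T v) - fderiv ℝ F (T v)) -
        (fderiv ℝ G (T v') - fderiv ℝ F (T v'))‖ ≤ η / 8 * (2 * ω ‖v - v'‖) := by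
      rcases eq_or_ne (T v) (T v') with h | h
      · rw [h, sub_self, norm_zero]; positivity
      · have e1 := hcl.w _ (hφK'' _ (hTS v hv)) _ (hφK'' _ (hTS v' hv')) h
        have hpos : 0 < ‖T v - T v'‖ := norm_pos_iff.2 (sub_ne_zero.2 h)
        refine e1.trans (mul_le_mul_of_nonneg_left ?_ (by linarith))
        exact (hω.mono _ _ hpos hlip).trans (Modulus.mul_le hω hρ (by norm_num))
    rw [comp_split]
    have b1 : ‖((fderiv ℝ G (T v) - fderiv ℝ F (T v)) -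
          (fderiv ℝ G (T v') - fderiv ℝ F (T v'))).comp (fderiv ℝ T v)‖ ≤
        η / 8 * (2 * ω ‖v - v'‖) * 2 :=
      (ContinuousLinearMap.opNorm_comp_le _ _).trans
        (mul_le_mul hD h7 (norm_nonneg _) (by positivity))
    have b2 : ‖(fderiv ℝ G (T v') - fderiv ℝ F (T v')).comp (fderiv ℝ T v - fderiv ℝ T v')‖ ≤
        η / 8 * (η1 * ω ‖v - v'‖) :=
      (ContinuousLinearMap.opNorm_comp_le _ _).trans
        (mul_le_mul h9 h8 (norm_nonneg _) (by positivity))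
    refine (norm_add_le _ _).trans ((add_le_add ((norm_add_le _ _).trans (add_le_add b1 b2))
      h6).trans ?_)
    have c1 : η1 * ω ‖v - v'‖ ≤ 1 / 2 * ω ‖v - v'‖ := mul_le_mul_of_nonneg_right hη1b hωρ.le
    have c2 : η1 * ω ‖v - v'‖ ≤ η / 8 * ω ‖v - v'‖ := mul_le_mul_of_nonneg_right hη1a hωρ.le
    have c3 : η / 8 * (η1 * ω ‖v - v'‖) ≤ η / 8 * (1 / 2 * ω ‖v - v'‖) :=
      mul_le_mul_of_nonneg_left c1 (by linarith)
    have c4 : 0 ≤ η * ω ‖v - v'‖ := by positivity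
    nlinarith

end Pool.Agent.H88.CM
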