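import Pool.Agent.H88.CM.ATHM
import Pool.Agent.H88.CL.Stat

/-! Closing lemma on compact manifolds: the closeness stated through directional derivatives. -/

open Set Function Topology Metric Filter
open scoped Manifold

namespace Pool.Agent.H88.CM

open Pool.Agent.H88.CL

noncomputable section

/-- `g` is `η`-close to `f` in the `C^{1,ω}` sense on the test `(φ, ψ, K)`: `g` maps `K` into the
source of `ψ`, and on `K`, in the charts `φ` and `ψ`, the difference of `g` and `f` and its derivative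
are bounded by `η` and this derivative has the modulus of continuity `η ω`. -/
structure CloseT (d : ℕ) {M : Type} [TopologicalSpace M] (ω : ℝ → ℝ) (η : ℝ) (f g : M → M)
    (φ ψ : Ch d M) (K : Set M) : Prop where
  m : ∀ y ∈ K, g y ∈ ψ.source
  z : ∀ y ∈ K, ‖ψ (g y) - ψ (f y)‖ ≤ η
  o : ∀ u ∈ φ '' K, ∀ w, ‖dif (rep φ ψ f) (rep φ ψ g) u w‖ ≤ η * ‖w‖
  w : ∀ u ∈ φ '' K, ∀ v ∈ φ '' K, ∀ w, u ≠ v →
    ‖dif (rep φ ψ f) (rep φ ψ g) u w - dif (rep φ ψ f) (rep φ ψ g) v w‖ ≤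
      η * ω ‖u - v‖ * ‖w‖

/-- The orbit map `ℤ → M` is not a homeomorphism onto its image. -/
def RecM {M : Type} [TopologicalSpace M] (f : Equiv.Perm M) (x : M) : Prop :=
  ¬ IsEmbedding (fun m : ℤ => (f ^ m) x)

theorem ClsT.close {d : ℕ} {M : Type} [TopologicalSpace M] {ω : ℝ → ℝ} {η : ℝ} {f g : M → M}
    {φ ψ : Ch d M} {K : Set M} (h : ClsT d ω η f g φ ψ K) : CloseT d ω η f g φ ψ K := by
  refine ⟨h.m, h.z, fun u hu w => ?_, fun u hu v hv w huv => ?_⟩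
  · have h1 := (fderiv ℝ (rep φ ψ g) u - fderiv ℝ (rep φ ψ f) u).le_opNorm w
    exact h1.trans (mul_le_mul_of_nonneg_right (h.o u hu) (norm_nonneg w))
  · have h1 := ((fderiv ℝ (rep φ ψ g) u - fderiv ℝ (rep φ ψ f) u) -
      (fderiv ℝ (rep φ ψ g) v - fderiv ℝ (rep φ ψ f) v)).le_opNorm w
    exact h1.trans (mul_le_mul_of_nonneg_right (h.w u hu v hv huv) (norm_nonneg w))

/-- `f` is a `C²` map of the manifold `M`. -/
def C2 (d : ℕ) {M : Type} [TopologicalSpace M] [ChartedSpace (E d) M] (f : M → M) : Prop :=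
  ContMDiff 𝓘(ℝ, E d) 𝓘(ℝ, E d) 2 f

/-- `f` is a `C²` diffeomorphism of the manifold `M`. -/
def DiffM (d : ℕ) {M : Type} [TopologicalSpace M] [ChartedSpace (E d) M]
    (f : Equiv.Perm M) : Prop := C2 d f ∧ C2 d f.symm

/-- `M` is a `C²` manifold modelled on `ℝ^d`. -/
def IsMfd (d : ℕ) (M : Type) [TopologicalSpace M] [ChartedSpace (E d) M] : Prop :=
  IsManifold 𝓘(ℝ, E d) 2 M

theorem perm_pow {M : Type} (g : Equiv.Perm M) (m : ℕ) (x : M) : (g ^ m) x = g^[m] x := by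
  induction m generalizing x with
  | zero => rfl
  | succ m ih => rw [pow_succ, Equiv.Perm.mul_apply, ih, iterate_succ_apply]

/-- The final statement with directional derivatives. -/
theorem s_MAN (h : T_MAN) (d : ℕ) (M : Type) [TopologicalSpace M] [T2Space M]
    [CompactSpace M] [ChartedSpace (E d) M] (hM : IsMfd d M)
    (f : Equiv.Perm M) (hf : DiffM d f) (x : M) (hx : RecM f x ∨ NWM f x)
    (nt : ℕ) (φ ψ : Fin nt → Ch d M) (K : Fin nt → Set M)
    (hT : ∀ k, Test d f (φ k) (ψ k) (K k)) (ω : ℝ → ℝ) (hω : Modulus ω) (η : ℝ) (hη : 0 < η) :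
    ∃ g : Equiv.Perm M, DiffM d g ∧ (∃ m : ℕ, 1 ≤ m ∧ (g ^ m) x = x) ∧
      ∀ k, CloseT d ω η f g (φ k) (ψ k) (K k) := by
  have : IsManifold 𝓘(ℝ, E d) 2 M := hM
  obtain ⟨g, ⟨m, hm, hg⟩, hc⟩ := h d M ⟨f, hf.1, hf.2⟩ x hx nt φ ψ K hT ω η hω hη
  refine ⟨g.toEquiv, ⟨g.contMDiff, g.symm.contMDiff⟩, ⟨m, hm, ?_⟩, fun k => (hc k).close⟩
  rw [perm_pow]
  exact hg

end

end Pool.Agent.H88.CM
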