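import Pool.Agent.H10.CM.CLB
import Pool.Agent.H11.CM.TRE
import Pool.Agent.H12.CM.BMD
import Pool.Agent.H13.CM.ITCS
import Pool.Agent.H19.CM.NLNS
import Pool.Agent.H20.CM.CLSL
import Pool.Agent.H20.CM.HLVM
import Pool.Agent.H20.CM.SELM
import Pool.Agent.H30.CLM.ITAS
import Pool.Agent.H30.CLM.ITBS
import Pool.Agent.H30.CLM.NSUS
import Pool.Agent.H38.CM.NUMM
import Pool.Agent.H39.CM.CLM
import Pool.Agent.H40.CM.SEQ
import Pool.Agent.H47.CM.TRM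
import Pool.Agent.H55.CM.ATM
import Pool.Agent.H63.CLM.OBCM
import Pool.Agent.H64.CLM.RECM
import Pool.Agent.H69.CLM.FSTM
import Pool.Agent.H74.CM2.GLU
import Pool.Agent.H74.CM2.ORB
import Pool.Agent.H75.CLM.EXT
import Pool.Agent.H75.CLM.MAXM
import Pool.Agent.H81.CM.STRM
import Pool.Agent.H86.CM.MBX
import Pool.Agent.H88.CM.CLL
import Pool.Agent.H88.CM.CRM
import Pool.Agent.H96.CM.NSTS
import Pool.Agent.H99.CM.CL1
import Pool.Agent.H99.CM.INV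
import Pool.Agent.H99.CM.LOC
import Pool.Agent.H88.CL.All
import Pool.Agent.H88.CM.ATHM
import Pool.Agent.H88.CM.Stat

/-! Closing lemma on compact manifolds: everything together. -/

open Set Function Topology Metric Filter
open scoped Manifold

namespace Pool.Agent.H88.CM

open Pool.Agent.H88.CL (E Modulus)

theorem a_TRE : T_TRE := Pool.Agent.H11.CM.pf_TRE 

theorem a_INV : T_INV := Pool.Agent.H99.CM.pf_INV 

theorem a_EXT : T_EXT := Pool.Agent.H75.CLM.pf_EXT Pool.Agent.H88.CL.a_BMP a_INV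

theorem a_ITAS : T_ITAS := Pool.Agent.H30.CM.pf_ITAS 

theorem a_ITBS : T_ITBS := Pool.Agent.H30.CM.pf_ITBS a_ITAS

theorem a_ITCS : T_ITCS := Pool.Agent.H13.CM.pf_ITCS a_ITAS

theorem a_NLNS : T_NLNS := Pool.Agent.H19.CM.pf_NLNS a_ITCS

theorem a_NSUS : T_NSUS := Pool.Agent.H30.CM.pf_NSUS Pool.Agent.H88.CL.a_OBP a_NLNS a_ITAS

theorem a_NSTS : T_NSTS := Pool.Agent.H96.CM.pf_NSTS a_NSUS a_ITAS

theorem a_SELM : T_SELM := Pool.Agent.H20.CM.pf_SELM 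

theorem a_MAXM : T_MAXM := Pool.Agent.H75.CLM.pf_MAXM 

theorem a_STRM : T_STRM := Pool.Agent.H81.CM.pf_STRM 

theorem a_CLSL : T_CLSL := Pool.Agent.H20.CM.pf_CLSL 

theorem a_NUMM : T_NUMM := Pool.Agent.H38.CM.pf_NUMM Pool.Agent.H88.CL.a_SCL Pool.Agent.H88.CL.a_OMB

theorem a_ATM : T_ATM := Pool.Agent.H55.CM.pf_ATM 

theorem a_LOC : T_LOC := Pool.Agent.H99.CM.pf_LOC a_TRE

theorem a_SEQ : T_SEQ := Pool.Agent.H40.CM.pf_SEQ a_LOC a_EXT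

theorem a_TRM : T_TRM := Pool.Agent.H47.CM.pf_TRM a_LOC

theorem a_ORB : T_ORB := Pool.Agent.H74.CM2.ORB.pf_ORB a_SEQ a_TRM a_ITAS

theorem a_BMD : T_BMD := Pool.Agent.H12.CM.pf_BMD 

theorem a_GLU : T_GLU := Pool.Agent.H74.CM2.GLU.pf_GLU 

theorem a_MBX : T_MBX := Pool.Agent.H86.CM.pf_MBX a_INV a_BMD a_GLU

theorem a_CLB : T_CLB := Pool.Agent.H10.CM.pf_CLB a_TRE a_CLSL

theorem a_CLM : T_CLM := Pool.Agent.H39.CM.pf_CLM a_CLB Pool.Agent.H88.CL.a_MOD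

theorem a_CL1 : T_CL1 := Pool.Agent.H99.CM.pf_CL1 a_CLM a_ATM Pool.Agent.H88.CL.a_OMB

theorem a_CRM : T_CRM := Pool.Agent.H88.CM.pf_CRM a_CL1 a_INV a_BMD

theorem a_CLL : T_CLL := Pool.Agent.H88.CM.pf_CLL a_CL1 a_TRE a_INV a_BMD

theorem a_OBCM : T_OBCM := Pool.Agent.H63.CLM.pf_OBCM Pool.Agent.H88.CL.a_OBP

theorem a_HLVM : T_HLVM := Pool.Agent.H20.CM.pf_HLVM a_OBCM

theorem a_FSTM : T_FSTM := Pool.Agent.H69.CM.pf_FSTM a_HLVM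

theorem a_RECM : T_RECM := Pool.Agent.H64.CLM.pf_RECM 

theorem a_TOPM : T_TOPM := asm_TOPM a_ITAS a_ITBS a_NSTS a_SELM a_STRM a_MBX a_MAXM a_NUMM a_ATM
  a_ORB a_CLM a_CL1 a_FSTM a_INV a_BMD

theorem a_CORE : T_CORE := asm_CORE a_TOPM a_CRM a_CLL a_INV a_BMD

theorem a_MAN : T_MAN := asm_MAN a_CORE a_RECM

end Pool.Agent.H88.CM
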