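import Pool.Agent.H88.CL.Basic

/-! Closing lemma on compact manifolds in the `C^{1,ω}`-small topology (problem MP_43af95_an):
definitions. -/

open Set Function Topology Metric Filter
open scoped Manifold

namespace Pool.Agent.H88.CM

open Pool.Agent.H88.CL

noncomputable section

/-- Local charts of `M` with values in `ℝ^d`. -/
abbrev Ch (d : ℕ) (M : Type) [TopologicalSpace M] := OpenPartialHomeomorph M (E d)

/-- The maximal `C²` atlas of `M`. -/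
abbrev MA (d : ℕ) (M : Type) [TopologicalSpace M] [ChartedSpace (E d) M] : Set (Ch d M) :=
  IsManifold.maximalAtlas 𝓘(ℝ, E d) 2 M

/-- `f` and `f'` are mutually inverse `C²` maps of `M`. -/
structure DM (d : ℕ) {M : Type} [TopologicalSpace M] [ChartedSpace (E d) M] (f f' : M → M) :
    Prop where
  c : ContMDiff 𝓘(ℝ, E d) 𝓘(ℝ, E d) 2 f
  c' : ContMDiff 𝓘(ℝ, E d) 𝓘(ℝ, E d) 2 f'
  li : ∀ x, f' (f x) = x
  ri : ∀ x, f (f' x) = x

/-- A finite family of `C²` charts `A i` with compact sets `Kh i` in their targets, such that every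
point is the centre of a chart ball of radius `r` inside one of the `Kh i`. -/
structure GA (d : ℕ) {M : Type} [TopologicalSpace M] [ChartedSpace (E d) M] (n : ℕ)
    (A : Fin n → Ch d M) (Kh : Fin n → Set (E d)) (r : ℝ) : Prop where
  atl : ∀ i, A i ∈ MA d M
  cpt : ∀ i, IsCompact (Kh i)
  sub : ∀ i, Kh i ⊆ (A i).target
  rpos : 0 < r
  cov : ∀ y : M, ∃ i, y ∈ (A i).source ∧ closedBall (A i y) r ⊆ Kh i

/-- A sequence of `C²` diffeomorphisms of `ℝ^d` with the uniform bound `L`. -/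
structure CfgS (d : ℕ) (L : ℝ) (Φ Φ' : ℕ → E d → E d) : Prop where
  two : 2 ≤ L
  c2 : ∀ l, ContDiff ℝ 2 (Φ l)
  c2' : ∀ l, ContDiff ℝ 2 (Φ' l)
  li : ∀ l x, Φ' l (Φ l x) = x
  ri : ∀ l x, Φ l (Φ' l x) = x
  b : ∀ l x, ‖fderiv ℝ (Φ l) x‖ ≤ L
  b' : ∀ l x, ‖fderiv ℝ (Φ' l) x‖ ≤ L
  lp : ∀ l x y, ‖fderiv ℝ (Φ l) x - fderiv ℝ (Φ l) y‖ ≤ L * ‖x - y‖

/-- The compositions `Φ (l - 1) ∘ ⋯ ∘ Φ 0`. -/
def Cmp {d : ℕ} (Φ : ℕ → E d → E d) : ℕ → E d → E d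
  | 0 => id
  | l + 1 => Φ l ∘ Cmp Φ l

/-- The map of `M` which is `id + u` in the chart `φ` and the identity outside. -/
def bmp {d : ℕ} {M : Type} [TopologicalSpace M] (φ : Ch d M) (u : E d → E d) : M → M :=
  open Classical in fun y => if y ∈ φ.source then φ.symm (φ y + u (φ y)) else y

/-- `u` is `C²`, supported in `K`, with bounds `σ`, `β`, `γ`. -/
structure Bp (d : ℕ) (K : Set (E d)) (σ β γ : ℝ) (u : E d → E d) : Prop where
  c2 : ContDiff ℝ 2 u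
  sup : ∀ v, u v ≠ 0 → v ∈ K
  s : ∀ v, ‖u v‖ ≤ σ
  b : ∀ v, ‖fderiv ℝ u v‖ ≤ β
  g : ∀ v w, ‖fderiv ℝ u v - fderiv ℝ u w‖ ≤ γ * ‖v - w‖

/-- `H` is the composition of the `N` bump maps `bmp (A (ι l)) (u l)`, whose supports lie in the
pairwise disjoint closed sets `Sg l`. -/
structure MB (d : ℕ) {M : Type} [TopologicalSpace M] (n : ℕ) (A : Fin n → Ch d M)
    (Kh : Fin n → Set (E d)) (σ β γ : ℝ) (N : ℕ) (ι : ℕ → Fin n) (u : ℕ → E d → E d)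
    (Sg : ℕ → Set M) (H : M → M) : Prop where
  bp : ∀ l < N, Bp d (Kh (ι l)) σ β γ (u l)
  sg : ∀ l < N, ∀ v, u l v ≠ 0 → (A (ι l)).symm v ∈ Sg l
  cl : ∀ l < N, IsClosed (Sg l)
  sb : ∀ l < N, Sg l ⊆ (A (ι l)).symm '' Kh (ι l)
  dj : ∀ l < N, ∀ j < N, l ≠ j → Disjoint (Sg l) (Sg j)
  eq : ∀ l < N, ∀ y, (∀ j < N, j ≠ l → y ∉ Sg j) → H y = bmp (A (ι l)) (u l) y
  id : ∀ y, (∀ j < N, y ∉ Sg j) → H y = y

/-- A test: two charts and a compact set of the source of the first one which `f` maps into the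
source of the second one. -/
structure Test (d : ℕ) {M : Type} [TopologicalSpace M] [ChartedSpace (E d) M] (f : M → M)
    (φ ψ : Ch d M) (K : Set M) : Prop where
  a : φ ∈ MA d M
  b : ψ ∈ MA d M
  c : IsCompact K
  s : K ⊆ φ.source
  t : ∀ y ∈ K, f y ∈ ψ.source

/-- The expression of `f` in the charts `φ`, `ψ`. -/
def rep {d : ℕ} {M : Type} [TopologicalSpace M] (φ ψ : Ch d M) (f : M → M) : E d → E d :=
  fun v => ψ (f (φ.symm v))

/-- `g` is `η`-close to `f` in the `C^{1,ω}` sense on the test `(φ, ψ, K)`. -/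
structure ClsT (d : ℕ) {M : Type} [TopologicalSpace M] (ω : ℝ → ℝ) (η : ℝ) (f g : M → M)
    (φ ψ : Ch d M) (K : Set M) : Prop where
  m : ∀ y ∈ K, g y ∈ ψ.source
  z : ∀ y ∈ K, ‖ψ (g y) - ψ (f y)‖ ≤ η
  o : ∀ u ∈ φ '' K, ‖fderiv ℝ (rep φ ψ g) u - fderiv ℝ (rep φ ψ f) u‖ ≤ η
  w : ∀ u ∈ φ '' K, ∀ v ∈ φ '' K, u ≠ v →
    ‖(fderiv ℝ (rep φ ψ g) u - fderiv ℝ (rep φ ψ f) u) -
      (fderiv ℝ (rep φ ψ g) v - fderiv ℝ (rep φ ψ f) v)‖ ≤ η * ω ‖u - v‖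

/-- The smallness of the sizes of the bumps. -/
structure Sml (ω : ℝ → ℝ) (e σ β γ : ℝ) : Prop where
  s0 : 0 < σ
  b0 : 0 < β
  g0 : 0 ≤ γ
  h : β ≤ 1 / 2
  a : σ + β ≤ e
  b : σ ≤ e * ω σ
  c : β ≤ e * ω (β / (β + γ))

end

end Pool.Agent.H88.CM
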