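import Pool.Agent.H88.CM.Statement
import Pool.Agent.H88.CM.All

/-! Closing lemma on compact manifolds: the theorem in terms of the definitions of
`Pool/Agent/H88/CM/Statement.lean`. -/

open Set Function Topology Filter
open scoped Manifold

namespace Pool.Agent.H88.CM

theorem final (d : ℕ) (M : Type) [TopologicalSpace M] [T2Space M]
    [CompactSpace M] [ChartedSpace (CS.E d) M] (hM : CS.IsMfd d M)
    (f : Equiv.Perm M) (hf : CS.Diff2 d f) (x : M) (hx : CS.Recurrent f x ∨ CS.NonWandering f x)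
    (nt : ℕ) (φ ψ : Fin nt → CS.Chart d M) (K : Fin nt → Set M)
    (hT : ∀ k, CS.Test d f (φ k) (ψ k) (K k)) (ω : ℝ → ℝ) (hω : CS.Modulus ω) (η : ℝ)
    (hη : 0 < η) :
    ∃ g : Equiv.Perm M, CS.Diff2 d g ∧ (∃ m : ℕ, 1 ≤ m ∧ (g ^ m) x = x) ∧
      ∀ k, CS.Close d ω η f g (φ k) (ψ k) (K k) := by
  obtain ⟨g, hg, hm, hc⟩ := s_MAN a_MAN d M hM f hf x (by
      rcases hx with h | h
      · exact Or.inl h
      · refine Or.inr fun V hV => ?_
        obtain ⟨n, hn, h1⟩ := h V hV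
        refine ⟨n, hn, ?_⟩
        have e : (f^[n] : M → M) = ((f ^ n : Equiv.Perm M) : M → M) := by
          funext y; rw [perm_pow]
        rw [e]
        exact h1) nt φ ψ K
    (fun k => ⟨(hT k).fst, (hT k).snd, (hT k).compact, (hT k).source, (hT k).maps⟩) ω
    ⟨hω.pos, hω.mono, hω.conc, hω.log⟩ η hη
  exact ⟨g, hg, hm, fun k => ⟨(hc k).m, (hc k).z, (hc k).o, (hc k).w⟩⟩

end Pool.Agent.H88.CM
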