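import Mathlib

/-! The definitions used in the statement of the closing lemma with a modulus of continuity on compact
manifolds (problem MP_43af95_an). -/

open Set Function Topology Filter
open scoped Manifold

namespace Pool.Agent.H88.CS

noncomputable section

/-- Euclidean space `ℝ^d`. -/
abbrev E (d : ℕ) := EuclideanSpace ℝ (Fin d)

/-- `M` is a `C²` manifold modelled on `ℝ^d`. -/
def IsMfd (d : ℕ) (M : Type) [TopologicalSpace M] [ChartedSpace (E d) M] : Prop :=
  IsManifold 𝓘(ℝ, E d) 2 M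

/-- `f` is a `C²` map of the manifold `M`. -/
def C2 (d : ℕ) {M : Type} [TopologicalSpace M] [ChartedSpace (E d) M] (f : M → M) : Prop :=
  ContMDiff 𝓘(ℝ, E d) 𝓘(ℝ, E d) 2 f

/-- `f` is a `C²` diffeomorphism of the manifold `M`. -/
def Diff2 (d : ℕ) {M : Type} [TopologicalSpace M] [ChartedSpace (E d) M]
    (f : Equiv.Perm M) : Prop := C2 d f ∧ C2 d f.symm

/-- `x` is recurrent in the sense of the problem file: the orbit map `ℤ → M` is not a homeomorphism
onto its image. -/
def Recurrent {M : Type} [TopologicalSpace M] (f : Equiv.Perm M) (x : M) : Prop :=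
  ¬ IsEmbedding (fun m : ℤ => (f ^ m) x)

/-- `x` is nonwandering. -/
def NonWandering {M : Type} [TopologicalSpace M] (f : Equiv.Perm M) (x : M) : Prop :=
  ∀ V ∈ 𝓝 x, ∃ n : ℕ, 1 ≤ n ∧ (((f ^ n : Equiv.Perm M) '' V) ∩ V).Nonempty

/-- Moduli of continuity `ω` with `ω(r) log(1/r) → ∞` as `r → 0`. -/
structure Modulus (ω : ℝ → ℝ) : Prop where
  pos : ∀ r, 0 < r → 0 < ω r
  mono : ∀ r s, 0 < r → r ≤ s → ω r ≤ ω s
  conc : ∀ r s, 0 < r → r ≤ s → r * ω s ≤ s * ω r
  log : Tendsto (fun r => ω r * Real.log (1 / r)) (𝓝[>] 0) atTop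

/-- Local charts of `M` with values in `ℝ^d`. -/
abbrev Chart (d : ℕ) (M : Type) [TopologicalSpace M] := OpenPartialHomeomorph M (E d)

/-- The chart belongs to the maximal `C²` atlas of `M`. -/
def IsC2Chart (d : ℕ) {M : Type} [TopologicalSpace M] [ChartedSpace (E d) M]
    (φ : Chart d M) : Prop := φ ∈ IsManifold.maximalAtlas 𝓘(ℝ, E d) 2 M

/-- A test for `f`: two `C²` charts and a compact set of the source of the first one which `f` maps
into the source of the second one. -/
structure Test (d : ℕ) {M : Type} [TopologicalSpace M] [ChartedSpace (E d) M] (f : M → M)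
    (φ ψ : Chart d M) (K : Set M) : Prop where
  fst : IsC2Chart d φ
  snd : IsC2Chart d ψ
  compact : IsCompact K
  source : K ⊆ φ.source
  maps : ∀ y ∈ K, f y ∈ ψ.source

/-- The expression `ψ ∘ f ∘ φ⁻¹` of `f` in the charts `φ`, `ψ`. -/
def rep {d : ℕ} {M : Type} [TopologicalSpace M] (φ ψ : Chart d M) (f : M → M) : E d → E d :=
  fun v => ψ (f (φ.symm v))

/-- The derivative of `F` at `u` in the direction `w`. -/
def der {d : ℕ} (F : E d → E d) (u w : E d) : E d := fderiv ℝ F u w

/-- The derivative of `G - F` at `u` in the direction `w`. -/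
def dif {d : ℕ} (F G : E d → E d) (u w : E d) : E d := der G u w - der F u w

/-- `g` is `η`-close to `f` in the `C^{1,ω}` sense on the test `(φ, ψ, K)`: `g` maps `K` into the
source of `ψ`, and on `K`, in the charts `φ` and `ψ`, the difference of `g` and `f` and its derivative
are bounded by `η` and this derivative has the modulus of continuity `η ω`. -/
structure Close (d : ℕ) {M : Type} [TopologicalSpace M] (ω : ℝ → ℝ) (η : ℝ) (f g : M → M)
    (φ ψ : Chart d M) (K : Set M) : Prop where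
  maps : ∀ y ∈ K, g y ∈ ψ.source
  zero : ∀ y ∈ K, ‖ψ (g y) - ψ (f y)‖ ≤ η
  one : ∀ u ∈ φ '' K, ∀ w, ‖dif (rep φ ψ f) (rep φ ψ g) u w‖ ≤ η * ‖w‖
  hold : ∀ u ∈ φ '' K, ∀ v ∈ φ '' K, ∀ w, u ≠ v →
    ‖dif (rep φ ψ f) (rep φ ψ g) u w - dif (rep φ ψ f) (rep φ ψ g) v w‖ ≤
      η * ω ‖u - v‖ * ‖w‖

end

end Pool.Agent.H88.CS
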