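import Pool.Agent.H88.CM.Defs

/-! Closing lemma on compact manifolds: the targets. -/

open Set Function Topology Metric Filter
open scoped Manifold

namespace Pool.Agent.H88.CM

open Pool.Agent.H88.CL

noncomputable section

/-! ### Euclidean part -/

def T_TRE : Prop := ∀ (d : ℕ) (O K : Set (E d)) (F : E d → E d), IsOpen O → IsCompact K → K ⊆ O →
  ContDiffOn ℝ 2 F O → ∃ r L : ℝ, 0 < r ∧ 1 ≤ L ∧ ∀ c ∈ K, closedBall c r ⊆ O ∧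
    (∀ x ∈ closedBall c r, ‖fderiv ℝ F x‖ ≤ L) ∧
    ∀ x ∈ closedBall c r, ∀ y ∈ closedBall c r, ‖fderiv ℝ F x - fderiv ℝ F y‖ ≤ L * ‖x - y‖

/-- inverse of `id + u` -/
def T_INV : Prop := ∀ (d : ℕ) (K : Set (E d)) (σ β γ : ℝ) (u : E d → E d), Bp d K σ β γ u →
  β ≤ 1 / 2 → ∃ u' : E d → E d, Bp d K σ (2 * β) (8 * γ) u' ∧
    (∀ v, (v + u v) + u' (v + u v) = v) ∧ ∀ v, (v + u' v) + u (v + u' v) = v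

/-- global extension of a local diffeomorphism -/
def T_EXT : Prop := ∀ (d : ℕ) (r L : ℝ), 0 < r → 1 ≤ L → ∃ s L' : ℝ, 0 < s ∧ s ≤ r ∧ 2 ≤ L' ∧
  ∀ (F : E d → E d) (c : E d) (A' : E d →L[ℝ] E d), ContDiffOn ℝ 2 F (ball c r) →
  (∀ x ∈ ball c r, ‖fderiv ℝ F x‖ ≤ L) →
  (∀ x ∈ ball c r, ∀ y ∈ ball c r, ‖fderiv ℝ F x - fderiv ℝ F y‖ ≤ L * ‖x - y‖) →
  ‖A'‖ ≤ L → (∀ w, A' (fderiv ℝ F c w) = w) → (∀ w, fderiv ℝ F c (A' w) = w) →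
  ∃ Φ Φ' : E d → E d, ContDiff ℝ 2 Φ ∧ ContDiff ℝ 2 Φ' ∧ (∀ x, Φ' (Φ x) = x) ∧
    (∀ x, Φ (Φ' x) = x) ∧ (∀ x, ‖fderiv ℝ Φ x‖ ≤ L') ∧ (∀ x, ‖fderiv ℝ Φ' x‖ ≤ L') ∧
    (∀ x y, ‖fderiv ℝ Φ x - fderiv ℝ Φ y‖ ≤ L' * ‖x - y‖) ∧ ∀ x ∈ ball c s, Φ x = F x

def T_ITAS : Prop := ∀ (d : ℕ) (L : ℝ) (Φ Φ' : ℕ → E d → E d), CfgS d L Φ Φ' → ∀ l : ℕ,
  ContDiff ℝ 2 (Cmp Φ l) ∧ (∀ x, ‖fderiv ℝ (Cmp Φ l) x‖ ≤ L ^ l) ∧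
  (∀ x y, ‖Cmp Φ l x - Cmp Φ l y‖ ≤ L ^ l * ‖x - y‖) ∧
  (∀ x y, ‖x - y‖ ≤ L ^ l * ‖Cmp Φ l x - Cmp Φ l y‖) ∧ Surjective (Cmp Φ l)

def T_ITBS : Prop := ∀ (d : ℕ) (L : ℝ) (Φ Φ' : ℕ → E d → E d), CfgS d L Φ Φ' →
  ∀ (l : ℕ) (b : E d), ∃ A' : E d →L[ℝ] E d, ‖A'‖ ≤ L ^ l ∧
    (∀ x, A' (fderiv ℝ (Cmp Φ l) b x) = x) ∧ ∀ x, fderiv ℝ (Cmp Φ l) b (A' x) = x

def T_ITCS : Prop := ∀ (d : ℕ) (L : ℝ) (Φ Φ' : ℕ → E d → E d), CfgS d L Φ Φ' →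
  ∀ (l : ℕ) (b x y : E d) (r : ℝ), ‖x - b‖ ≤ r → ‖y - b‖ ≤ r →
    ‖Cmp Φ l x - Cmp Φ l y - fderiv ℝ (Cmp Φ l) b (x - y)‖ ≤ L ^ (3 * l) * r * ‖x - y‖

def T_NLNS : Prop := ∀ (d : ℕ) (L : ℝ) (Φ Φ' : ℕ → E d → E d), CfgS d L Φ Φ' →
  ∀ (N l : ℕ) (b p x y : E d) (D : ℝ), l ≤ N → 0 ≤ D → 100 * L ^ (13 * N) * (‖p - b‖ + D) ≤ 1 →
    ‖x - p‖ ≤ 2 * L ^ (4 * N) * D → ‖y - p‖ ≤ 2 * L ^ (4 * N) * D →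
    50 * L ^ (6 * N) * ‖Cmp Φ l x - Cmp Φ l y - fderiv ℝ (Cmp Φ l) b (x - y)‖ ≤ ‖x - y‖

def T_NSUS : Prop := ∀ d : ℕ, 1 ≤ d → ∃ C : ℝ, 1 ≤ C ∧ ∀ (L : ℝ) (Φ Φ' : ℕ → E d → E d),
  CfgS d L Φ Φ' →
  ∀ (N : ℕ) (b p v z z' : E d) (P : E d ≃L[ℝ] E d) (T : ℕ → E d →L[ℝ] E d) (l : ℕ),
  1 ≤ N → Frame d N (L ^ N) (fun l => fderiv ℝ (Cmp Φ l) b) P T → l < N → v ≠ 0 →
  100 * L ^ (13 * N) * (‖p - b‖ + ‖v‖) ≤ 1 → ‖z - (1 / 2 : ℝ) • v‖ ≤ ‖v‖ / 2 →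
  ‖z' - (1 / 2 : ℝ) • v‖ ≤ ‖v‖ / 2 → ‖z' - z‖ ≤ d / N * ‖v‖ →
  ‖T l‖ * ‖fderiv ℝ (Cmp Φ l) b (P (z' - z))‖ ≤ d / N * ‖v‖ →
  ∃ u : E d → E d, Bp d (Cmp Φ l '' {x | ‖P.symm (x - p) - (1 / 2 : ℝ) • v‖ ≤ 3 / 4 * ‖v‖})
      (C * L ^ (3 * N) * ‖v‖) (C / N) (C * L ^ N / (N * ‖v‖)) u ∧
    u (Cmp Φ l (p + P z)) = Cmp Φ l (p + P z') - Cmp Φ l (p + P z)

def T_NSTS : Prop := ∀ d : ℕ, 1 ≤ d → ∃ C : ℝ, 1 ≤ C ∧ ∀ (L : ℝ) (Φ Φ' : ℕ → E d → E d),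
  CfgS d L Φ Φ' →
  ∀ (N : ℕ) (b p q : E d) (P : E d ≃L[ℝ] E d) (T : ℕ → E d →L[ℝ] E d), 1 ≤ N →
  Frame d N (L ^ N) (fun l => fderiv ℝ (Cmp Φ l) b) P T → q ≠ p →
  100 * L ^ (13 * N) * (‖p - b‖ + ‖P.symm (q - p)‖) ≤ 1 →
  ∃ (ζ : ℕ → E d) (u : ℕ → E d → E d), ζ 0 = q ∧ ζ N = p ∧
    (∀ l ≤ N, ‖P.symm (ζ l - p) - (1 / 2 : ℝ) • P.symm (q - p)‖ ≤ 3 / 4 * ‖P.symm (q - p)‖) ∧
    ∀ l < N, Bp d (Cmp Φ l ''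
        {x | ‖P.symm (x - p) - (1 / 2 : ℝ) • P.symm (q - p)‖ ≤ 3 / 4 * ‖P.symm (q - p)‖})
        (C * L ^ (3 * N) * ‖P.symm (q - p)‖) (C / N) (C * L ^ N / (N * ‖P.symm (q - p)‖)) (u l) ∧
      u l (Cmp Φ l (ζ l)) = Cmp Φ l (ζ (l + 1)) - Cmp Φ l (ζ l)

def T_SELM : Prop := ∀ (d : ℕ) (P : E d ≃L[ℝ] E d) (b : E d) (y : ℕ → E d) (S : Set ℕ) (n : ℕ)
  (c0 d0 : ℝ), 0 < d0 →
  (∃ i j : ℕ, i < j ∧ j ≤ n ∧ i ∈ S ∧ j ∈ S ∧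
    ‖P.symm (y j - y i)‖ + 1 / 16 * ‖P.symm (y i - b)‖ ≤ c0) →
  (∀ i j : ℕ, i < j → j ≤ n → i ∈ S → j ∈ S →
    ‖P.symm (y j - y i)‖ + 1 / 16 * ‖P.symm (y i - b)‖ ≤ c0 → d0 ≤ ‖P.symm (y j - y i)‖) →
  ∃ i j : ℕ, i < j ∧ j ≤ n ∧ i ∈ S ∧ j ∈ S ∧
    ‖P.symm (y j - y i)‖ + 1 / 16 * ‖P.symm (y i - b)‖ ≤ c0 ∧
    ∀ s, i < s → s < j → s ∈ S →
      3 / 4 * ‖P.symm (y j - y i)‖ < ‖P.symm (y s - y i) - (1 / 2 : ℝ) • P.symm (y j - y i)‖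

def T_MAXM : Prop := ∀ (M : Type) (d : ℕ) (Y : ℕ → M) (y : ℕ → E d) (S : Set ℕ) (n : ℕ)
  (x : E d) (D ρ : ℕ → ℝ) (N0 : ℕ) (R : ℝ), (∀ i ∈ S, ∀ j ∈ S, y i = y j → Y i = Y j) →
  (∀ ε : ℝ, 0 < ε → ∃ N1, ∀ N ≥ N1, D N < ε) → (∀ N, ρ N ≤ R) →
  (∃ i j, i < j ∧ j ≤ n ∧ i ∈ S ∧ j ∈ S ∧ ‖y i - x‖ ≤ ρ N0 ∧ ‖y j - y i‖ ≤ D N0) →
  (∃ i j, i < j ∧ j ≤ n ∧ i ∈ S ∧ ‖y i - x‖ ≤ R ∧ Y i = Y j) ∨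
  ∃ N, N0 ≤ N ∧ (∃ i j, i < j ∧ j ≤ n ∧ i ∈ S ∧ j ∈ S ∧ ‖y i - x‖ ≤ ρ N ∧ ‖y j - y i‖ ≤ D N) ∧
    ∀ i j, i < j → j ≤ n → i ∈ S → j ∈ S → ‖y i - x‖ ≤ ρ (N + 1) → D (N + 1) < ‖y j - y i‖

def T_STRM : Prop := ∀ (M : Type) (f H : M → M), Injective f → ∀ (N m : ℕ) (p q : M) (ζ : ℕ → M)
  (W : Set M), ζ 0 = q → ζ N = p → (∀ l < N, H (f^[l] (ζ l)) = f^[l] (ζ (l + 1))) →
  (∀ y, H y ≠ y → ∃ l < N, ∃ x ∈ W, y = f^[l] x) → N ≤ m → f^[m] p = q →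
  (∀ s, 1 ≤ s → s < m → f^[s] p ∉ W) → (f ∘ H)^[m] q = q

/-- local closeness estimate -/
def T_CLSL : Prop := ∀ (d : ℕ) (L r : ℝ) (Θ : E d → E d) (c : E d) (K : Set (E d)) (σ β γ : ℝ)
  (u : E d → E d), 1 ≤ L → ContDiffOn ℝ 2 Θ (ball c r) → (∀ x ∈ ball c r, ‖fderiv ℝ Θ x‖ ≤ L) →
  (∀ x ∈ ball c r, ∀ y ∈ ball c r, ‖fderiv ℝ Θ x - fderiv ℝ Θ y‖ ≤ L * ‖x - y‖) →
  Bp d K σ β γ u → β ≤ 1 / 2 →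
  (∀ v, ‖v - c‖ + σ < r → ‖Θ (v + u v) - Θ v‖ ≤ L * σ ∧
    ‖fderiv ℝ (fun v => Θ (v + u v)) v - fderiv ℝ Θ v‖ ≤ L * (σ + β)) ∧
  ∀ v w, ‖v - c‖ + σ < r → ‖w - c‖ + σ < r →
    ‖(fderiv ℝ (fun v => Θ (v + u v)) v - fderiv ℝ Θ v) -
      (fderiv ℝ (fun v => Θ (v + u v)) w - fderiv ℝ Θ w)‖ ≤
      min (2 * L * σ) (3 * L * ‖v - w‖) + min (2 * L * β) (L * (2 * β + γ) * ‖v - w‖)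

def T_NUMM : Prop := ∀ ω : ℝ → ℝ, Modulus ω → ∀ L C δ e t c0 : ℝ, 2 ≤ L → 1 ≤ C → 0 < δ → 0 < e →
  0 < t → t < 1 → 0 < c0 → ∃ (s : ℕ → ℝ) (N0 : ℕ), 1 ≤ N0 ∧
  (∀ ε : ℝ, 0 < ε → ∃ N1, ∀ N ≥ N1, Real.exp (-s N) < ε) ∧
  ∀ N ≥ N0, 16 * L ^ (2 * N) * Real.exp (-s N) ≤ δ / 2 ^ (N + 1) ∧
    1700 * L ^ (15 * N) * Real.exp (-s N) ≤ 1 ∧
    20 * L ^ (3 * N) * Real.exp (-s N) < δ ∧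
    51 * L ^ (6 * N) * Real.exp (-s N) ≤ Real.exp (-(s N / 3)) ∧
    Real.exp (-(s N / 3)) ≤ c0 * t ^ N ∧
    ∀ D' : ℝ, 0 < D' → D' ≤ 1 → Real.exp (-s (N + 1)) ≤ L ^ (2 * N) * D' →
      Sml ω e (C * L ^ (3 * N) * Real.exp (-s N)) (C / N) (C * L ^ N / (N * D'))

/-! ### charts -/

def T_ATM : Prop := ∀ (d : ℕ) (M : Type) [TopologicalSpace M] [T2Space M] [CompactSpace M]
  [ChartedSpace (E d) M] [IsManifold 𝓘(ℝ, E d) 2 M] (κ : Ch d M) (K : Set (E d)), κ ∈ MA d M →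
  IsCompact K → K ⊆ κ.target → ∃ (n : ℕ) (A : Fin n → Ch d M) (Kh : Fin n → Set (E d)) (r : ℝ)
    (i0 : Fin n), GA d n A Kh r ∧ A i0 = κ ∧ Kh i0 = K

def T_LOC : Prop := ∀ (d : ℕ) (M : Type) [TopologicalSpace M] [T2Space M] [CompactSpace M]
  [ChartedSpace (E d) M] [IsManifold 𝓘(ℝ, E d) 2 M] (n : ℕ) (A : Fin n → Ch d M)
  (Kh : Fin n → Set (E d)) (r : ℝ), GA d n A Kh r → ∀ f f' : M → M, DM d f f' →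
  ∃ r1 L : ℝ, 0 < r1 ∧ r1 ≤ r ∧ 1 ≤ L ∧ ∀ (i j : Fin n) (y : M), y ∈ (A i).source →
    A i y ∈ Kh i → f y ∈ (A j).source → A j (f y) ∈ Kh j →
    ContDiffOn ℝ 2 (rep (A i) (A j) f) (ball (A i y) r1) ∧
    (∀ w ∈ ball (A i y) r1, w ∈ (A i).target ∧ f ((A i).symm w) ∈ (A j).source) ∧
    (∀ w ∈ ball (A i y) r1, ‖fderiv ℝ (rep (A i) (A j) f) w‖ ≤ L) ∧
    (∀ w ∈ ball (A i y) r1, ∀ w' ∈ ball (A i y) r1,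
      ‖fderiv ℝ (rep (A i) (A j) f) w - fderiv ℝ (rep (A i) (A j) f) w'‖ ≤ L * ‖w - w'‖) ∧
    ∃ A' : E d →L[ℝ] E d, ‖A'‖ ≤ L ∧ (∀ w, A' (fderiv ℝ (rep (A i) (A j) f) (A i y) w) = w) ∧
      ∀ w, fderiv ℝ (rep (A i) (A j) f) (A i y) (A' w) = w

def T_SEQ : Prop := ∀ (d : ℕ) (M : Type) [TopologicalSpace M] [T2Space M] [CompactSpace M]
  [ChartedSpace (E d) M] [IsManifold 𝓘(ℝ, E d) 2 M] (n : ℕ) (A : Fin n → Ch d M)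
  (Kh : Fin n → Set (E d)) (r : ℝ), GA d n A Kh r → ∀ f f' : M → M, DM d f f' →
  ∃ s L : ℝ, 0 < s ∧ 2 ≤ L ∧ ∀ (b : M) (i0 : Fin n), b ∈ (A i0).source →
    closedBall (A i0 b) r ⊆ Kh i0 → ∃ (ι : ℕ → Fin n) (Φ Φ' : ℕ → E d → E d), ι 0 = i0 ∧
      CfgS d L Φ Φ' ∧ ∀ (l : ℕ) (w : E d), L ^ l * ‖w - A i0 b‖ < s →
        w ∈ (A i0).target ∧ Cmp Φ l w ∈ Kh (ι l) ∧ f^[l] ((A i0).symm w) ∈ (A (ι l)).source ∧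
        A (ι l) (f^[l] ((A i0).symm w)) = Cmp Φ l w

def T_TRM : Prop := ∀ (d : ℕ) (M : Type) [TopologicalSpace M] [T2Space M] [CompactSpace M]
  [ChartedSpace (E d) M] [IsManifold 𝓘(ℝ, E d) 2 M] (n : ℕ) (A : Fin n → Ch d M)
  (Kh : Fin n → Set (E d)) (r : ℝ), GA d n A Kh r → ∃ r2 L : ℝ, 0 < r2 ∧ 1 ≤ L ∧
  ∀ (i j : Fin n) (v v' : E d), v ∈ Kh i → (A i).symm v ∈ (A j).source →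
    A j ((A i).symm v) ∈ Kh j → ‖v' - v‖ ≤ r2 → v' ∈ (A i).target ∧
      (A i).symm v' ∈ (A j).source ∧
      ‖A j ((A i).symm v') - A j ((A i).symm v)‖ ≤ L * ‖v' - v‖

/-- charts along the orbit, and the returns -/
def T_ORB : Prop := ∀ (d : ℕ) (M : Type) [TopologicalSpace M] [T2Space M] [CompactSpace M]
  [ChartedSpace (E d) M] [IsManifold 𝓘(ℝ, E d) 2 M] (n : ℕ) (A : Fin n → Ch d M)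
  (Kh : Fin n → Set (E d)) (r : ℝ), GA d n A Kh r → ∀ f f' : M → M, DM d f f' →
  ∃ s L : ℝ, 0 < s ∧ 2 ≤ L ∧ ∀ (b : M) (i0 : Fin n), b ∈ (A i0).source →
    closedBall (A i0 b) r ⊆ Kh i0 → ∃ (ι : ℕ → Fin n) (Φ Φ' : ℕ → E d → E d), ι 0 = i0 ∧
      CfgS d L Φ Φ' ∧ (∀ (l : ℕ) (w : E d), L ^ l * ‖w - A i0 b‖ < s →
        w ∈ (A i0).target ∧ Cmp Φ l w ∈ Kh (ι l) ∧ f^[l] ((A i0).symm w) ∈ (A (ι l)).source ∧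
        A (ι l) (f^[l] ((A i0).symm w)) = Cmp Φ l w) ∧
      ∀ (k : ℕ) (w : E d), L ^ k * ‖w - A i0 b‖ < s → f^[k] ((A i0).symm w) ∈ (A i0).source →
        A i0 (f^[k] ((A i0).symm w)) ∈ Kh i0 → f^[k] b ∈ (A i0).source ∧
        ‖A i0 (f^[k] b) - A i0 (f^[k] ((A i0).symm w))‖ ≤ L ^ (k + 1) * ‖w - A i0 b‖

/-! ### bump diffeomorphisms of `M` -/

def T_BMD : Prop := ∀ (d : ℕ) (M : Type) [TopologicalSpace M] [T2Space M]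
  [ChartedSpace (E d) M] [IsManifold 𝓘(ℝ, E d) 2 M] (φ : Ch d M) (K : Set (E d))
  (σ β γ σ' β' γ' : ℝ) (u u' : E d → E d), φ ∈ MA d M → IsCompact K → K ⊆ φ.target →
  Bp d K σ β γ u → Bp d K σ' β' γ' u' → (∀ v, (v + u v) + u' (v + u v) = v) →
  (∀ v, (v + u' v) + u (v + u' v) = v) → DM d (bmp φ u) (bmp φ u') ∧
    (∀ y ∈ φ.source, bmp φ u y ∈ φ.source ∧ φ (bmp φ u y) = φ y + u (φ y)) ∧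
    ∀ y, bmp φ u y ≠ y → y ∈ φ.source ∧ u (φ y) ≠ 0

def T_GLU : Prop := ∀ (d : ℕ) (M : Type) [TopologicalSpace M] [ChartedSpace (E d) M]
  (N : ℕ) (h h' : ℕ → M → M) (Sg : ℕ → Set M), (∀ l < N, DM d (h l) (h' l)) →
  (∀ l < N, ∀ y, h l y ≠ y → y ∈ Sg l) → (∀ l < N, ∀ j < N, l ≠ j → Disjoint (Sg l) (Sg j)) →
  ∃ H H' : M → M, DM d H H' ∧ (∀ l < N, ∀ y, (∀ j < N, j ≠ l → y ∉ Sg j) → H y = h l y) ∧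
    ∀ y, (∀ j < N, y ∉ Sg j) → H y = y

def T_MBX : Prop := ∀ (d : ℕ) (M : Type) [TopologicalSpace M] [T2Space M] [CompactSpace M]
  [ChartedSpace (E d) M] [IsManifold 𝓘(ℝ, E d) 2 M] (n : ℕ) (A : Fin n → Ch d M)
  (Kh : Fin n → Set (E d)) (r : ℝ), GA d n A Kh r → ∀ (σ β γ : ℝ) (N : ℕ) (ι : ℕ → Fin n)
  (u : ℕ → E d → E d) (Sg : ℕ → Set M), β ≤ 1 / 2 → (∀ l < N, Bp d (Kh (ι l)) σ β γ (u l)) →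
  (∀ l < N, ∀ v, u l v ≠ 0 → (A (ι l)).symm v ∈ Sg l) → (∀ l < N, IsClosed (Sg l)) →
  (∀ l < N, Sg l ⊆ (A (ι l)).symm '' Kh (ι l)) →
  (∀ l < N, ∀ j < N, l ≠ j → Disjoint (Sg l) (Sg j)) →
  ∃ H H' : M → M, DM d H H' ∧ MB d n A Kh σ β γ N ι u Sg H

/-! ### closeness -/

/-- one active bump -/
def T_CLB : Prop := ∀ (d : ℕ) (M : Type) [TopologicalSpace M] [T2Space M] [CompactSpace M]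
  [ChartedSpace (E d) M] [IsManifold 𝓘(ℝ, E d) 2 M] (n : ℕ) (A : Fin n → Ch d M)
  (Kh : Fin n → Set (E d)) (r : ℝ), GA d n A Kh r → ∀ f f' : M → M, DM d f f' →
  ∀ (φ ψ : Ch d M) (K : Set M), Test d f φ ψ K → ∃ s C : ℝ, 0 < s ∧ 1 ≤ C ∧
  ∀ (i : Fin n) (σ β γ : ℝ) (u : E d → E d), Bp d (Kh i) σ β γ u → C * σ ≤ 1 → β ≤ 1 / 2 →
  ∀ y ∈ K, y ∈ (A i).source → A i y ∈ Kh i →
    f (bmp (A i) u y) ∈ ψ.source ∧ ‖ψ (f (bmp (A i) u y)) - ψ (f y)‖ ≤ C * σ ∧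
    ‖fderiv ℝ (rep φ ψ (f ∘ bmp (A i) u)) (φ y) - fderiv ℝ (rep φ ψ f) (φ y)‖ ≤ C * (σ + β) ∧
    ∀ w, ‖w - φ y‖ < s →
      ‖(fderiv ℝ (rep φ ψ (f ∘ bmp (A i) u)) (φ y) - fderiv ℝ (rep φ ψ f) (φ y)) -
        (fderiv ℝ (rep φ ψ (f ∘ bmp (A i) u)) w - fderiv ℝ (rep φ ψ f) w)‖ ≤
        C * (min σ ‖w - φ y‖ + min β ((β + γ) * ‖w - φ y‖) + (σ + β) * ‖w - φ y‖)

/-- many bumps with disjoint supports -/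
def T_CLM : Prop := ∀ (d : ℕ) (M : Type) [TopologicalSpace M] [T2Space M] [CompactSpace M]
  [ChartedSpace (E d) M] [IsManifold 𝓘(ℝ, E d) 2 M] (n : ℕ) (A : Fin n → Ch d M)
  (Kh : Fin n → Set (E d)) (r : ℝ), GA d n A Kh r → ∀ f f' : M → M, DM d f f' →
  ∀ (φ ψ : Ch d M) (K : Set M), Test d f φ ψ K → ∀ (ω : ℝ → ℝ) (η : ℝ), Modulus ω → 0 < η →
  ∃ e : ℝ, 0 < e ∧ ∀ (σ β γ : ℝ) (N : ℕ) (ι : ℕ → Fin n) (u : ℕ → E d → E d) (Sg : ℕ → Set M)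
    (H : M → M), MB d n A Kh σ β γ N ι u Sg H → Sml ω e σ β γ → ClsT d ω η f (f ∘ H) φ ψ K

/-- one small bump -/
def T_CL1 : Prop := ∀ (d : ℕ) (M : Type) [TopologicalSpace M] [T2Space M] [CompactSpace M]
  [ChartedSpace (E d) M] [IsManifold 𝓘(ℝ, E d) 2 M] (κ : Ch d M) (Kκ : Set (E d)), κ ∈ MA d M →
  IsCompact Kκ → Kκ ⊆ κ.target → ∀ f f' : M → M, DM d f f' →
  ∀ (φ ψ : Ch d M) (K : Set M), Test d f φ ψ K → ∀ (ω : ℝ → ℝ) (η : ℝ), Modulus ω → 0 < η →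
  ∃ e : ℝ, 0 < e ∧ e ≤ 1 / 2 ∧ ∀ u : E d → E d, Bp d Kκ e e e u →
    ClsT d ω η f (f ∘ bmp κ u) φ ψ K

/-- composition with a small bump on the right -/
def T_CRM : Prop := ∀ (d : ℕ) (M : Type) [TopologicalSpace M] [T2Space M] [CompactSpace M]
  [ChartedSpace (E d) M] [IsManifold 𝓘(ℝ, E d) 2 M] (κ : Ch d M) (Kκ : Set (E d)), κ ∈ MA d M →
  IsCompact Kκ → Kκ ⊆ κ.target → ∀ f f' : M → M, DM d f f' →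
  ∀ (φ ψ : Ch d M) (K : Set M), Test d f φ ψ K → ∀ (ω : ℝ → ℝ) (η : ℝ), Modulus ω → 0 < η →
  ∃ (K' : Set M) (η' e : ℝ), Test d f φ ψ K' ∧ 0 < η' ∧ 0 < e ∧ e ≤ 1 / 2 ∧
    ∀ g g' : M → M, DM d g g' → ClsT d ω η' f g φ ψ K' → ∀ u : E d → E d, Bp d Kκ e e e u →
      ClsT d ω η f (g ∘ bmp κ u) φ ψ K

/-- composition with a small bump on the left -/
def T_CLL : Prop := ∀ (d : ℕ) (M : Type) [TopologicalSpace M] [T2Space M] [CompactSpace M]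
  [ChartedSpace (E d) M] [IsManifold 𝓘(ℝ, E d) 2 M] (κ : Ch d M) (Kκ : Set (E d)), κ ∈ MA d M →
  IsCompact Kκ → Kκ ⊆ κ.target → ∀ f f' : M → M, DM d f f' →
  ∀ (φ ψ : Ch d M) (K : Set M), Test d f φ ψ K → ∀ (ω : ℝ → ℝ) (η : ℝ), Modulus ω → 0 < η →
  ∃ (K' : Set M) (η' e : ℝ), Test d f φ ψ K' ∧ 0 < η' ∧ 0 < e ∧ e ≤ 1 / 2 ∧
    ∀ g g' : M → M, DM d g g' → ClsT d ω η' f g φ ψ K' → ∀ u : E d → E d, Bp d Kκ e e e u →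
      ClsT d ω η f (bmp κ u ∘ g) φ ψ K

/-! ### the fast regime -/

def T_OBCM : Prop := ∀ d : ℕ, ∃ C : ℝ, 1 ≤ C ∧ ∀ (M : Type) [TopologicalSpace M] (f : M → M)
  (κ : Ch d M) (x : E d) (ρ0 : ℝ) (y q : M) (m : ℕ) (R : ℝ), closedBall x ρ0 ⊆ κ.target →
  y ∈ κ.source → q ∈ κ.source → ‖κ q - x‖ ≤ ρ0 / 2 → 1 ≤ m → f^[m] y = q → 0 < R →
  R ≤ ρ0 / 2 → (∀ l, 1 ≤ l → l < m → f^[l] y ∈ κ.source → R < ‖κ (f^[l] y) - κ q‖) →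
  ∃ u : E d → E d, Bp d (closedBall x ρ0) ‖κ q - κ y‖ (C * ‖κ q - κ y‖ / R)
    (C * ‖κ q - κ y‖ / R ^ 2) u ∧ (f ∘ bmp κ u)^[m] q = q

def T_HLVM : Prop := ∀ d : ℕ, ∃ C : ℝ, 1 ≤ C ∧ ∀ (M : Type) [TopologicalSpace M] (f : M → M)
  (κ : Ch d M) (x : E d) (ρ0 ε : ℝ) (y : M) (m : ℕ), closedBall x ρ0 ⊆ κ.target → 0 < ρ0 →
  ρ0 ≤ 1 → 0 < ε → ε ≤ 1 → y ∈ κ.source → ‖κ y - x‖ ≤ ρ0 / 4 → 1 ≤ m → f^[m] y ∈ κ.source →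
  C / ε * ‖κ (f^[m] y) - κ y‖ ≤ (ρ0 / 8) ^ 2 →
  (∃ u : E d → E d, Bp d (closedBall x ρ0) ε ε ε u ∧
    (f ∘ bmp κ u)^[m] (f^[m] y) = f^[m] y) ∨
  ∃ (y' : M) (m' : ℕ), 1 ≤ m' ∧ 2 * m' ≤ m ∧ y' ∈ κ.source ∧
    ‖κ y' - κ y‖ ≤ 2 * Real.sqrt (C / ε * ‖κ (f^[m] y) - κ y‖) ∧ f^[m'] y' ∈ κ.source ∧
    ‖κ (f^[m'] y') - κ y'‖ ≤ 2 * Real.sqrt (C / ε * ‖κ (f^[m] y) - κ y‖)

def T_FSTM : Prop := ∀ (d : ℕ) (ε ρ0 : ℝ), 0 < ε → 0 < ρ0 → ρ0 ≤ 1 → ∃ t c0 : ℝ, 0 < t ∧ t < 1 ∧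
  0 < c0 ∧ ∀ (M : Type) [TopologicalSpace M] (f : M → M) (κ : Ch d M) (x : E d),
  closedBall x ρ0 ⊆ κ.target → ∀ (y : M) (m : ℕ), 1 ≤ m → y ∈ κ.source → ‖κ y - x‖ ≤ ρ0 / 8 →
    f^[m] y ∈ κ.source → ‖κ (f^[m] y) - κ y‖ ≤ c0 * t ^ m →
    ∃ (u : E d → E d) (q : M) (m' : ℕ), Bp d (closedBall x ρ0) ε ε ε u ∧ 1 ≤ m' ∧
      q ∈ κ.source ∧ ‖κ q - κ y‖ ≤ ε ∧ (f ∘ bmp κ u)^[m'] q = q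

/-! ### recurrence -/

/-- `x` is nonwandering for `f`. -/
def NWM {M : Type} [TopologicalSpace M] (f : M → M) (x : M) : Prop :=
  ∀ V ∈ 𝓝 x, ∃ n : ℕ, 1 ≤ n ∧ ((f^[n] '' V) ∩ V).Nonempty

def T_RECM : Prop := ∀ (M : Type) [TopologicalSpace M] (f : Equiv.Perm M) (x : M),
  Continuous f → Continuous f.symm → ¬ IsEmbedding (fun m : ℤ => (f ^ m) x) → NWM f x

end

end Pool.Agent.H88.CM
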